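import Pool.Agent.H24R2.DZ.Spec

set_option autoImplicit false

namespace Pool.Agent.H156R2.DZArc

open Complex Filter Topology MeasureTheory Set
open Pool.Agent.H24R2.DZ

/-- growth along a segment -/
lemma growth {S : Set ℂ} (hS : Convex ℝ S) {Q : ℂ → ℂ} {K : ℝ}
    (hd : ∀ w ∈ S, DifferentiableAt ℂ Q w) (hb : ∀ w ∈ S, ‖deriv Q w‖ ≤ K * ‖Q w‖)
    {w' w : ℂ} (hw' : w' ∈ S) (hw : w ∈ S) :
    ‖Q w‖ ≤ ‖Q w'‖ * Real.exp (K * ‖w - w'‖) := by
  have hseg : ∀ t ∈ Icc (0:ℝ) 1, w' + (t : ℂ) * (w - w') ∈ S := by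
    intro t ht
    have := hS hw' hw (sub_nonneg.2 ht.2) ht.1 (by ring)
    convert this using 1
    simp only [Complex.real_smul]
    push_cast
    ring
  have hder : ∀ t ∈ Icc (0:ℝ) 1, HasDerivAt (fun t : ℝ => Q (w' + (t : ℂ) * (w - w')))
      ((w - w') * deriv Q (w' + (t : ℂ) * (w - w'))) t := by
    intro t ht
    have h1 := (hd _ (hseg t ht)).hasDerivAt
    have h2 : HasDerivAt (fun t : ℝ => w' + (t : ℂ) * (w - w')) (w - w') t := by
      have := (Complex.ofRealCLM.hasDerivAt (x := t)).mul_const (w - w')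
      simpa using this.const_add w'
    have := HasDerivAt.scomp t h1 h2
    simpa [smul_eq_mul, Function.comp_def] using this
  have key := norm_le_gronwallBound_of_norm_deriv_right_le
    (f := fun t : ℝ => Q (w' + (t : ℂ) * (w - w')))
    (f' := fun t => (w - w') * deriv Q (w' + (t : ℂ) * (w - w')))
    (δ := ‖Q w'‖) (K := K * ‖w - w'‖) (ε := 0) (a := 0) (b := 1)
    (fun t ht => (hder t ht).continuousAt.continuousWithinAt)
    (fun t ht => (hder t ⟨ht.1, ht.2.le⟩).hasDerivWithinAt)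
    (by simp)
    (fun t ht => by
      have := hb _ (hseg t ⟨ht.1, ht.2.le⟩)
      rw [norm_mul, add_zero]
      calc ‖w - w'‖ * ‖deriv Q (w' + (t : ℂ) * (w - w'))‖
          ≤ ‖w - w'‖ * (K * ‖Q (w' + (t : ℂ) * (w - w'))‖) :=
            mul_le_mul_of_nonneg_left this (norm_nonneg _)
        _ = K * ‖w - w'‖ * ‖Q (w' + (t : ℂ) * (w - w'))‖ := by ring)
    1 ⟨zero_le_one, le_rfl⟩
  rw [gronwallBound_ε0] at key
  simpa using key

/-- growth of a function whose logarithmic derivative is near `n` -/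
lemma growF {S : Set ℂ} (hS : Convex ℝ S) {F : ℂ → ℂ} {n η : ℝ}
    (h : ∀ w ∈ S, DifferentiableAt ℂ F w ∧ F w ≠ 0 ∧ ‖logDeriv F w - n‖ ≤ η * n)
    {w' w : ℂ} (hw' : w' ∈ S) (hw : w ∈ S) :
    ‖F w‖ ≤ ‖F w'‖ * Real.exp (n * (w.re - w'.re) + η * n * ‖w - w'‖) := by
  have hder : ∀ w ∈ S, HasDerivAt (fun w => F w * cexp (-(n * w)))
      ((logDeriv F w - n) * (F w * cexp (-(n * w)))) w := by
    intro w hw
    obtain ⟨h1, h2, -⟩ := h w hw
    have h3 : HasDerivAt (fun w : ℂ => cexp (-(n * w))) (cexp (-(n * w)) * (-(n : ℂ))) w := by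
      have : HasDerivAt (fun w : ℂ => -((n : ℂ) * w)) (-(n : ℂ)) w := by
        simpa using ((hasDerivAt_id w).const_mul (n : ℂ)).fun_neg
      exact this.cexp
    have h4 := h1.hasDerivAt.mul h3
    refine h4.congr_deriv ?_
    rw [logDeriv_apply]
    field_simp
    ring
  have key := growth hS (Q := fun w => F w * cexp (-(n * w))) (K := η * n)
    (fun w hw => (hder w hw).differentiableAt)
    (fun w hw => by
      rw [(hder w hw).deriv, norm_mul]
      exact mul_le_mul_of_nonneg_right (h w hw).2.2 (norm_nonneg _)) hw' hw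
  have e1 : ∀ w : ℂ, ‖cexp (-(n * w))‖ = Real.exp (-(n * w.re)) := by
    intro w
    rw [Complex.norm_exp]
    simp
  rw [norm_mul, norm_mul, e1, e1] at key
  have hpos : 0 < Real.exp (n * w.re) := Real.exp_pos _
  have h5 : ‖F w‖ = Real.exp (n * w.re) * (‖F w‖ * Real.exp (-(n * w.re))) := by
    rw [mul_comm (‖F w‖), ← mul_assoc, ← Real.exp_add]
    simp
  rw [h5]
  calc Real.exp (n * w.re) * (‖F w‖ * Real.exp (-(n * w.re)))
      ≤ Real.exp (n * w.re) * (‖F w'‖ * Real.exp (-(n * w'.re)) * Real.exp (η * n * ‖w - w'‖)) :=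
        mul_le_mul_of_nonneg_left key hpos.le
    _ = ‖F w'‖ * Real.exp (n * (w.re - w'.re) + η * n * ‖w - w'‖) := by
        rw [show n * (w.re - w'.re) + η * n * ‖w - w'‖ =
          n * w.re + (-(n * w'.re)) + η * n * ‖w - w'‖ by ring, Real.exp_add, Real.exp_add]
        ring

/-- the derivative of the integrand of Cauchy's formula -/
lemma hasDeriv_Q {n : ℕ} {p w : ℂ} {F : ℂ → ℂ} (h1 : DifferentiableAt ℂ F w) (h2 : F w ≠ 0)
    (h3 : w - p ≠ 0) :
    HasDerivAt (fun w => F w / (w - p) ^ (n + 1))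
      ((logDeriv F w - (n + 1) / (w - p)) * (F w / (w - p) ^ (n + 1))) w := by
  have h4 : HasDerivAt (fun w : ℂ => (w - p) ^ (n + 1)) ((n + 1 : ℕ) * (w - p) ^ n * 1) w := by
    have := ((hasDerivAt_id w).sub_const p).fun_pow (n + 1)
    simpa using this
  refine (h1.hasDerivAt.div h4 (pow_ne_zero _ h3)).congr_deriv ?_
  rw [logDeriv_apply]
  push_cast
  field_simp
  ring

/-- size of the logarithmic derivative of the integrand near the saddle -/
lemma logQ_le {n : ℕ} {η : ℝ} {p w : ℂ} {F : ℂ → ℂ} (hη : 0 < η) (hη1 : η ≤ 1 / 1000) (hn : 100 ≤ n)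
    (hw : ‖w - (p + 1)‖ ≤ 1001 / 10000) (h3 : ‖logDeriv F w - n‖ ≤ η * n) :
    ‖logDeriv F w - (n + 1) / (w - p)‖ ≤ n / 8 := by
  have hn' : (100 : ℝ) ≤ n := by exact_mod_cast hn
  obtain ⟨ζ, hζ⟩ : ∃ ζ, ζ = w - (p + 1) := ⟨_, rfl⟩
  rw [← hζ] at hw
  have e1 : w - p = 1 + ζ := by rw [hζ]; ring
  have h4 : 8999 / 10000 ≤ ‖1 + ζ‖ := by
    have := norm_sub_norm_le (1 : ℂ) (-ζ)
    rw [norm_one, norm_neg, sub_neg_eq_add] at this
    linarith
  have h5 : (1 + ζ) ≠ 0 := by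
    intro h; rw [h, norm_zero] at h4; linarith
  have e2 : logDeriv F w - (n + 1) / (w - p) = (logDeriv F w - n) + (n * ζ - 1) / (1 + ζ) := by
    rw [e1]; field_simp; ring
  have h6 : ‖((n : ℂ) * ζ - 1) / (1 + ζ)‖ ≤ (n * (1001 / 10000) + 1) / (8999 / 10000) := by
    rw [norm_div]
    refine div_le_div₀ (by positivity) ?_ (by norm_num) h4
    calc ‖(n : ℂ) * ζ - 1‖ ≤ ‖(n : ℂ) * ζ‖ + ‖(1 : ℂ)‖ := norm_sub_le _ _
      _ ≤ n * (1001 / 10000) + 1 := by
        rw [norm_mul, norm_one, Complex.norm_natCast]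
        gcongr
  rw [e2]
  refine (norm_add_le _ _).trans ?_
  have h7 : η * n ≤ 1 / 1000 * n := by gcongr
  have h8 : ((n : ℝ) * (1001 / 10000) + 1) / (8999 / 10000) = n * (1001 / 8999) + 10000 / 8999 := by ring
  rw [h8] at h6
  linarith

/-- the value of the primitive changes little along a short segment -/
lemma seg_le {n : ℕ} {η A : ℝ} {p a b : ℂ} {F G : ℂ → ℂ} (hη : 0 < η) (hη1 : η ≤ 1 / 1000)
    (hn : 100 ≤ n)
    (hF : ∀ w ∈ Metric.ball (p + 1) (1 / 2), DifferentiableAt ℂ F w ∧ F w ≠ 0 ∧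
      ‖logDeriv F w - n‖ ≤ η * n)
    (hG : ∀ w ∈ Metric.ball (p + 1) (1 / 2), HasDerivAt G (F w / (w - p) ^ (n + 1)) w)
    (ha : ‖a - (p + 1)‖ ≤ 1001 / 10000) (hb : ‖b - (p + 1)‖ ≤ 1001 / 10000)
    (hab : ‖a - b‖ ≤ 101 / 10000)
    (hA : ‖F b / (b - p) ^ (n + 1)‖ ≤ Real.exp (-(n / 400)) * A) :
    ‖G a - G b‖ ≤ 1 / 50 * (Real.exp (-(n / 1000)) * A) := by
  have hS : Convex ℝ (Metric.closedBall (p + 1) (1001 / 10000)) := convex_closedBall _ _
  have hsub : ∀ w ∈ Metric.closedBall (p + 1) (1001 / 10000 : ℝ), w ∈ Metric.ball (p + 1) (1 / 2) := by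
    intro w hw
    rw [Metric.mem_closedBall] at hw
    rw [Metric.mem_ball]
    linarith
  have hne : ∀ w ∈ Metric.closedBall (p + 1) (1001 / 10000 : ℝ), w - p ≠ 0 := by
    intro w hw h
    rw [Metric.mem_closedBall, dist_eq_norm, show w - (p + 1) = (w - p) - 1 by ring, h, zero_sub,
      norm_neg, norm_one] at hw
    linarith
  have hA0 : 0 ≤ A := by
    by_contra h
    have := (norm_nonneg _).trans hA
    have h2 : Real.exp (-(n / 400 : ℝ)) * A < 0 := mul_neg_of_pos_of_neg (Real.exp_pos _) (not_le.1 h)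
    linarith
  have ha' : a ∈ Metric.closedBall (p + 1) (1001 / 10000 : ℝ) := by
    rw [Metric.mem_closedBall, dist_eq_norm]; exact ha
  have hb' : b ∈ Metric.closedBall (p + 1) (1001 / 10000 : ℝ) := by
    rw [Metric.mem_closedBall, dist_eq_norm]; exact hb
  have hseg : segment ℝ b a ⊆ Metric.closedBall (p + 1) (1001 / 10000 : ℝ) :=
    hS.segment_subset hb' ha'
  have hbound : ∀ x ∈ segment ℝ b a, ‖F x / (x - p) ^ (n + 1)‖ ≤ Real.exp (-(n / 1000)) * A := by
    intro x hx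
    have hx' := hseg hx
    have h1 := growth hS (Q := fun w => F w / (w - p) ^ (n + 1)) (K := n / 8)
      (fun w hw => (hasDeriv_Q (hF w (hsub w hw)).1 (hF w (hsub w hw)).2.1 (hne w hw)).differentiableAt)
      (fun w hw => by
        rw [(hasDeriv_Q (hF w (hsub w hw)).1 (hF w (hsub w hw)).2.1 (hne w hw)).deriv, norm_mul]
        refine mul_le_mul_of_nonneg_right (logQ_le hη hη1 hn ?_ (hF w (hsub w hw)).2.2)
          (norm_nonneg _)
        rw [Metric.mem_closedBall, dist_eq_norm] at hw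
        exact hw) hb' hx'
    have h2 : ‖x - b‖ ≤ 101 / 10000 := by
      refine le_trans ?_ hab
      have := norm_sub_le_of_mem_segment hx
      rwa [norm_sub_rev] at this ⊢
    calc ‖F x / (x - p) ^ (n + 1)‖ ≤ ‖F b / (b - p) ^ (n + 1)‖ * Real.exp (n / 8 * ‖x - b‖) := h1
      _ ≤ (Real.exp (-(n / 400)) * A) * Real.exp (n / 8 * (101 / 10000)) := by
        gcongr
      _ = Real.exp (-(n / 400) + n / 8 * (101 / 10000)) * A := by rw [Real.exp_add]; ring
      _ ≤ Real.exp (-(n / 1000)) * A := by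
        refine mul_le_mul_of_nonneg_right (Real.exp_le_exp.2 ?_) hA0
        have : (0 : ℝ) ≤ n := Nat.cast_nonneg _
        linarith
  have h3 := (convex_segment b a).norm_image_sub_le_of_norm_hasDerivWithin_le (f := G)
    (f' := fun x => F x / (x - p) ^ (n + 1))
    (fun x hx => (hG x (hsub x (hseg hx))).hasDerivWithinAt) hbound
    (left_mem_segment ℝ b a) (right_mem_segment ℝ b a)
  refine h3.trans ?_
  have h4 : 0 ≤ Real.exp (-(n / 1000 : ℝ)) * A := mul_nonneg (Real.exp_pos _).le hA0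
  calc Real.exp (-(n / 1000)) * A * ‖a - b‖ ≤ Real.exp (-(n / 1000)) * A * (101 / 10000) := by
        gcongr
    _ ≤ 1 / 50 * (Real.exp (-(n / 1000)) * A) := by linarith

/-- the integrand of Cauchy's formula on the unit circle about `p` -/
noncomputable def gg (F : ℂ → ℂ) (n : ℕ) (p : ℂ) (φ : ℝ) : ℂ :=
  F (p + cexp (φ * I)) / (p + cexp (φ * I) - p) ^ (n + 1) * (cexp (φ * I) * I)

lemma gg_norm (F : ℂ → ℂ) (n : ℕ) (p : ℂ) (φ : ℝ) : ‖gg F n p φ‖ = ‖F (p + cexp (φ * I))‖ := by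
  unfold gg
  rw [norm_mul, norm_div, norm_pow, norm_mul, add_sub_cancel_left, Complex.norm_exp_ofReal_mul_I,
    Complex.norm_I]
  simp

lemma gg_cont {F : ℂ → ℂ} {n : ℕ} {p : ℂ} (hF : ∀ w ∈ Metric.closedBall p 1, DifferentiableAt ℂ F w) :
    Continuous (gg F n p) := by
  unfold gg
  have h1 : Continuous fun φ : ℝ => F (p + cexp (φ * I)) := by
    rw [continuous_iff_continuousAt]
    intro φ
    have h2 : p + cexp (φ * I) ∈ Metric.closedBall p 1 := by
      rw [Metric.mem_closedBall, dist_eq_norm, add_sub_cancel_left, Complex.norm_exp_ofReal_mul_I]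
    have h3 : ContinuousAt (fun φ : ℝ => p + cexp (φ * I)) φ := by fun_prop
    exact (hF _ h2).continuousAt.comp_of_eq h3 rfl
  refine (h1.div (by fun_prop) ?_).mul (by fun_prop)
  intro φ
  rw [add_sub_cancel_left]
  exact pow_ne_zero _ (Complex.exp_ne_zero _)

lemma cauchy_gg {F : ℂ → ℂ} (n : ℕ) {p : ℂ} (hF : ∀ w ∈ Metric.closedBall p 1, DifferentiableAt ℂ F w) :
    ∫ φ in (-Real.pi)..Real.pi, gg F n p φ = (2 * Real.pi * I / n.factorial) * iteratedDeriv n F p := by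
  have h1 : DifferentiableOn ℂ F (Metric.closedBall p 1) :=
    fun w hw => (hF w hw).differentiableWithinAt
  have h2 := h1.circleIntegral_one_div_sub_center_pow_smul one_pos n
  rw [← smul_eq_mul, ← h2, circleIntegral]
  have h3 : Function.Periodic (gg F n p) (2 * Real.pi) := by
    intro φ
    unfold gg
    have : cexp (((φ + 2 * Real.pi : ℝ) : ℂ) * I) = cexp (φ * I) := by
      rw [show ((φ + 2 * Real.pi : ℝ) : ℂ) * I = φ * I + 2 * Real.pi * I by push_cast; ring,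
        Complex.exp_add, Complex.exp_two_pi_mul_I, mul_one]
    rw [this]
  have h4 := h3.intervalIntegral_add_eq (-Real.pi) 0
  rw [zero_add, show -Real.pi + 2 * Real.pi = Real.pi by ring] at h4
  rw [h4]
  refine intervalIntegral.integral_congr fun φ _ => ?_
  simp only [gg, circleMap, deriv_circleMap, smul_eq_mul, Complex.ofReal_one, one_mul, zero_add]
  rw [div_eq_mul_inv, one_div]
  ring

/-- Cauchy's formula with the saddle point estimate -/
lemma core (h : SLap) : ∃ η c : ℝ, ∃ n1 : ℕ, 0 < η ∧ η ≤ 1 / 1000 ∧ 0 < c ∧ 1 ≤ n1 ∧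
    ∀ (n : ℕ) (p : ℂ) (F : ℂ → ℂ), n1 ≤ n →
    (∀ w ∈ Metric.ball (p + 1) (1 / 2), DifferentiableAt ℂ F w ∧ F w ≠ 0 ∧
      ‖logDeriv F w - n‖ ≤ η * n) →
    (∀ w ∈ Metric.closedBall p 1, DifferentiableAt ℂ F w) →
    (∀ φ : ℝ, 1 / 10 ≤ |φ| → |φ| ≤ Real.pi →
      ‖F (p + cexp (φ * I))‖ ≤ Real.exp (-(n / 250)) * ‖F (p + 1)‖) →
    (n.factorial : ℝ) * (c / Real.sqrt n * (Real.exp (-(n / 10000)) * ‖F (p + 1)‖)) ≤
      ‖iteratedDeriv n F p‖ := by
  obtain ⟨η0, c, C, n0, hη0, hc, hC, hn0, H⟩ := h (1 / 10000) (by norm_num) (by norm_num)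
  refine ⟨min η0 (1 / 1000), c / 16, max n0 (max 100 (⌈(16000 / c) ^ 2⌉₊)),
    lt_min hη0 (by norm_num), min_le_right _ _, by positivity, le_max_of_le_left hn0, ?_⟩
  intro n p F hn hF hd hrest
  have hn0' : n0 ≤ n := (le_max_left _ _).trans hn
  have hn100 : 100 ≤ n := (le_max_left _ _).trans ((le_max_right _ _).trans hn)
  have hnc : (16000 / c) ^ 2 ≤ (n : ℝ) := by
    have h1 : ⌈(16000 / c) ^ 2⌉₊ ≤ n := (le_max_right _ _).trans ((le_max_right _ _).trans hn)
    exact (Nat.le_ceil _).trans (by exact_mod_cast h1)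
  have hnpos : (0 : ℝ) < n := by
    have : 0 < n := by omega
    exact_mod_cast this
  have hηpos : 0 < min η0 (1 / 1000) := lt_min hη0 (by norm_num)
  have hη1 : min η0 (1 / 1000) ≤ 1 / 1000 := min_le_right _ _
  obtain ⟨w0, hw0, -, hlow, hdec, hmain, -⟩ := H n hn0' p F (fun w hw =>
    ⟨(hF w hw).1, (hF w hw).2.1, (hF w hw).2.2.trans
      (mul_le_mul_of_nonneg_right (min_le_left _ _) hnpos.le)⟩)
  obtain ⟨A, hA⟩ : ∃ A, A = ‖F w0 / (w0 - p) ^ (n + 1)‖ := ⟨_, rfl⟩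
  simp only [← hA] at hlow hdec hmain
  have hA0 : 0 ≤ A := by rw [hA]; exact norm_nonneg _
  obtain ⟨E, hE⟩ : ∃ E, E = Real.exp (-(n / 1000 : ℝ)) * A := ⟨_, rfl⟩
  have hE0 : 0 ≤ E := by rw [hE]; exact mul_nonneg (Real.exp_pos _).le hA0
  have hne : ∀ w ∈ Metric.ball (p + 1) (1 / 2 : ℝ), w - p ≠ 0 := by
    intro w hw h
    rw [Metric.mem_ball, dist_eq_norm, show w - (p + 1) = (w - p) - 1 by ring, h, zero_sub,
      norm_neg, norm_one] at hw
    linarith
  have hQ : DifferentiableOn ℂ (fun w => F w / (w - p) ^ (n + 1)) (Metric.ball (p + 1) (1 / 2)) :=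
    fun w hw => (hasDeriv_Q (hF w hw).1 (hF w hw).2.1 (hne w hw)).differentiableAt.differentiableWithinAt
  obtain ⟨G, hG⟩ := hQ.isExactOn_ball
  -- points near `p + 1`
  have hexp1 : ∀ φ : ℝ, ‖cexp (φ * I) - 1‖ ≤ |φ| := by
    intro φ
    have := Real.norm_exp_I_mul_ofReal_sub_one_le (x := φ)
    rwa [mul_comm I, Real.norm_eq_abs] at this
  have harc : ∀ φ : ℝ, |φ| ≤ 1 / 10 → p + cexp (φ * I) ∈ Metric.ball (p + 1) (1 / 2 : ℝ) := by
    intro φ hφ
    rw [Metric.mem_ball, dist_eq_norm, show p + cexp (φ * I) - (p + 1) = cexp (φ * I) - 1 by ring]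
    have := hexp1 φ
    linarith
  have hver : ∀ y : ℝ, |y| ≤ 1 / 10 → ‖w0 + I * y - (p + 1)‖ ≤ 1001 / 10000 := by
    intro y hy
    rw [show w0 + I * y - (p + 1) = (w0 - (p + 1)) + I * y by ring]
    refine (norm_add_le _ _).trans ?_
    rw [norm_mul, Complex.norm_I, one_mul, Complex.norm_real, Real.norm_eq_abs]
    linarith
  have hver' : ∀ y : ℝ, |y| ≤ 1 / 10 → w0 + I * y ∈ Metric.ball (p + 1) (1 / 2 : ℝ) := by
    intro y hy
    rw [Metric.mem_ball, dist_eq_norm]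
    have := hver y hy
    linarith
  -- the arc
  have I1 : ∫ φ in (-(1 / 10) : ℝ)..(1 / 10), gg F n p φ =
      G (p + cexp (((1 / 10 : ℝ) : ℂ) * I)) - G (p + cexp (((-(1 / 10) : ℝ) : ℂ) * I)) := by
    refine intervalIntegral.integral_eq_sub_of_hasDerivAt (f := fun φ : ℝ => G (p + cexp (φ * I)))
      ?_ ((gg_cont hd).intervalIntegrable _ _)
    intro φ hφ
    rw [Set.uIcc_of_le (by norm_num)] at hφ
    have h1 := hG _ (harc φ (abs_le.2 ⟨hφ.1, hφ.2⟩))
    have h2 : HasDerivAt (fun φ : ℝ => p + cexp (φ * I)) (cexp (φ * I) * I) φ := by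
      have h3 : HasDerivAt (fun φ : ℝ => (φ : ℂ) * I) (1 * I) φ :=
        (Complex.ofRealCLM.hasDerivAt (x := φ)).mul_const I
      have := h3.cexp.const_add p
      simpa using this
    have := HasDerivAt.scomp φ h1 h2
    refine this.congr_deriv ?_
    rw [smul_eq_mul]
    unfold gg
    ring
  have I2 : ∫ y in (-(1 / 10) : ℝ)..(1 / 10), I * (F (w0 + I * y) / (w0 + I * y - p) ^ (n + 1)) =
      G (w0 + I * ((1 / 10 : ℝ) : ℂ)) - G (w0 + I * ((-(1 / 10) : ℝ) : ℂ)) := by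
    refine intervalIntegral.integral_eq_sub_of_hasDerivAt (f := fun y : ℝ => G (w0 + I * y)) ?_ ?_
    · intro y hy
      rw [Set.uIcc_of_le (by norm_num)] at hy
      have h1 := hG _ (hver' y (abs_le.2 ⟨hy.1, hy.2⟩))
      have h2 : HasDerivAt (fun y : ℝ => w0 + I * y) I y := by
        have h3 : HasDerivAt (fun y : ℝ => I * (y : ℂ)) (I * 1) y :=
          (Complex.ofRealCLM.hasDerivAt (x := y)).const_mul I
        simpa using h3.const_add w0
      have := HasDerivAt.scomp y h1 h2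
      exact this.congr_deriv (by rw [smul_eq_mul])
    · refine ContinuousOn.intervalIntegrable ?_
      rw [Set.uIcc_of_le (by norm_num)]
      intro y hy
      have h1 := (hQ _ (hver' y (abs_le.2 ⟨hy.1, hy.2⟩))).differentiableAt
        (Metric.isOpen_ball.mem_nhds (hver' y (abs_le.2 ⟨hy.1, hy.2⟩)))
      have h2 : ContinuousAt (fun y : ℝ => w0 + I * (y : ℂ)) y := by fun_prop
      exact ((h1.continuousAt.comp_of_eq h2 rfl).const_mul I |>.continuousWithinAt)
  have I3 : c / Real.sqrt n * A ≤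
      ‖G (w0 + I * ((1 / 10 : ℝ) : ℂ)) - G (w0 + I * ((-(1 / 10) : ℝ) : ℂ))‖ := by
    rw [← I2, intervalIntegral.integral_const_mul, norm_mul, Complex.norm_I, one_mul]
    exact hmain
  have hconn : ∀ y : ℝ, |y| = 1 / 10 →
      ‖G (p + cexp ((y : ℂ) * I)) - G (w0 + I * (y : ℂ))‖ ≤ 1 / 50 * E := by
    intro y hy
    rw [hE]
    refine seg_le hηpos hη1 hn100 hF hG ?_ (hver y hy.le) ?_ ?_
    · rw [show p + cexp ((y : ℂ) * I) - (p + 1) = cexp ((y : ℂ) * I) - 1 by ring]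
      have := hexp1 y
      linarith
    · rw [show p + cexp ((y : ℂ) * I) - (w0 + I * (y : ℂ)) =
        (cexp ((y : ℂ) * I) - 1 - (y : ℂ) * I) - (w0 - (p + 1)) by ring]
      refine (norm_sub_le _ _).trans ?_
      have hn1 : ‖(y : ℂ) * I‖ = 1 / 10 := by
        rw [norm_mul, Complex.norm_I, mul_one, Complex.norm_real, Real.norm_eq_abs, hy]
      have h1 := Complex.norm_exp_sub_one_sub_id_le (x := (y : ℂ) * I) (by rw [hn1]; norm_num)
      rw [hn1] at h1
      linarith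
    · have h1 := hdec y hy.le
      have h2 : y ^ 2 = (1 / 10) ^ 2 := by rw [← sq_abs, hy]
      rw [h2] at h1
      refine h1.trans (le_of_eq ?_)
      congr 2
      ring
  have harcle : c / Real.sqrt n * A - 1 / 25 * E ≤ ‖∫ φ in (-(1 / 10) : ℝ)..(1 / 10), gg F n p φ‖ := by
    rw [I1]
    have h1 := hconn (1 / 10) (by rw [abs_of_pos (by norm_num)])
    have h2 := hconn (-(1 / 10)) (by rw [abs_neg, abs_of_pos (by norm_num)])
    have h3 := norm_add₃_le (a := G (p + cexp (((1 / 10 : ℝ) : ℂ) * I)) - G (p + cexp (((-(1 / 10) : ℝ) : ℂ) * I)))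
      (b := -(G (p + cexp (((1 / 10 : ℝ) : ℂ) * I)) - G (w0 + I * ((1 / 10 : ℝ) : ℂ))))
      (c := G (p + cexp (((-(1 / 10) : ℝ) : ℂ) * I)) - G (w0 + I * ((-(1 / 10) : ℝ) : ℂ)))
    rw [norm_neg, show G (p + cexp (((1 / 10 : ℝ) : ℂ) * I)) - G (p + cexp (((-(1 / 10) : ℝ) : ℂ) * I)) +
      -(G (p + cexp (((1 / 10 : ℝ) : ℂ) * I)) - G (w0 + I * ((1 / 10 : ℝ) : ℂ))) +
      (G (p + cexp (((-(1 / 10) : ℝ) : ℂ) * I)) - G (w0 + I * ((-(1 / 10) : ℝ) : ℂ))) =
      G (w0 + I * ((1 / 10 : ℝ) : ℂ)) - G (w0 + I * ((-(1 / 10) : ℝ) : ℂ)) by ring] at h3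
    linarith
  -- the rest of the circle
  have hgg : ∀ φ : ℝ, 1 / 10 ≤ |φ| → |φ| ≤ Real.pi → ‖gg F n p φ‖ ≤ E := by
    intro φ h1 h2
    rw [gg_norm, hE]
    refine (hrest φ h1 h2).trans ?_
    have h3 : ‖F (p + 1)‖ ≤ Real.exp (n / 10000) * A := by
      calc ‖F (p + 1)‖ = Real.exp (n / 10000) * (Real.exp (-(1 / 10000 * n)) * ‖F (p + 1)‖) := by
            rw [← mul_assoc, ← Real.exp_add, show (n / 10000 + -(1 / 10000 * n) : ℝ) = 0 by ring,
              Real.exp_zero, one_mul]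
        _ ≤ Real.exp (n / 10000) * A := mul_le_mul_of_nonneg_left hlow (Real.exp_pos _).le
    calc Real.exp (-(n / 250)) * ‖F (p + 1)‖ ≤ Real.exp (-(n / 250)) * (Real.exp (n / 10000) * A) :=
          mul_le_mul_of_nonneg_left h3 (Real.exp_pos _).le
      _ = Real.exp (-(n / 250) + n / 10000) * A := by rw [Real.exp_add]; ring
      _ ≤ Real.exp (-(n / 1000)) * A := by
        refine mul_le_mul_of_nonneg_right (Real.exp_le_exp.2 ?_) hA0
        linarith
  have hpi : Real.pi ≤ 315 / 100 := by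
    have := Real.pi_lt_d2
    linarith
  have hpi3 : 3 < Real.pi := Real.pi_gt_three
  have R1 : ‖∫ φ in (-Real.pi)..(-(1 / 10) : ℝ), gg F n p φ‖ ≤ E * 4 := by
    refine (intervalIntegral.norm_integral_le_of_norm_le_const (C := E) ?_).trans ?_
    · intro φ hφ
      rw [Set.uIoc_of_le (by linarith)] at hφ
      have h0 : φ ≤ 0 := by linarith [hφ.2]
      refine hgg φ ?_ ?_
      · rw [abs_of_nonpos h0]; linarith [hφ.2]
      · rw [abs_of_nonpos h0]; linarith [hφ.1]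
    · refine mul_le_mul_of_nonneg_left ?_ hE0
      rw [abs_of_nonneg (by linarith)]
      linarith
  have R2 : ‖∫ φ in (1 / 10 : ℝ)..Real.pi, gg F n p φ‖ ≤ E * 4 := by
    refine (intervalIntegral.norm_integral_le_of_norm_le_const (C := E) ?_).trans ?_
    · intro φ hφ
      rw [Set.uIoc_of_le (by linarith)] at hφ
      have h0 : 0 ≤ φ := by linarith [hφ.1]
      refine hgg φ ?_ ?_
      · rw [abs_of_nonneg h0]; linarith [hφ.1]
      · rw [abs_of_nonneg h0]; linarith [hφ.2]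
    · refine mul_le_mul_of_nonneg_left ?_ hE0
      rw [abs_of_nonneg (by linarith)]
      linarith
  have hci := fun a b : ℝ => (gg_cont (n := n) hd).intervalIntegrable (μ := volume) a b
  have hsplit : ∫ φ in (-Real.pi)..Real.pi, gg F n p φ =
      (∫ φ in (-Real.pi)..(-(1 / 10) : ℝ), gg F n p φ) + (∫ φ in (-(1 / 10) : ℝ)..(1 / 10), gg F n p φ) +
        ∫ φ in (1 / 10 : ℝ)..Real.pi, gg F n p φ := by
    rw [intervalIntegral.integral_add_adjacent_intervals (hci _ _) (hci _ _),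
      intervalIntegral.integral_add_adjacent_intervals (hci _ _) (hci _ _)]
  have htot : c / Real.sqrt n * A - 9 * E ≤ ‖∫ φ in (-Real.pi)..Real.pi, gg F n p φ‖ := by
    have h3 := norm_add₃_le (a := ∫ φ in (-Real.pi)..Real.pi, gg F n p φ)
      (b := -(∫ φ in (-Real.pi)..(-(1 / 10) : ℝ), gg F n p φ))
      (c := -(∫ φ in (1 / 10 : ℝ)..Real.pi, gg F n p φ))
    rw [norm_neg, norm_neg, show (∫ φ in (-Real.pi)..Real.pi, gg F n p φ) +
      -(∫ φ in (-Real.pi)..(-(1 / 10) : ℝ), gg F n p φ) + -(∫ φ in (1 / 10 : ℝ)..Real.pi, gg F n p φ) =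
      ∫ φ in (-(1 / 10) : ℝ)..(1 / 10), gg F n p φ by rw [hsplit]; ring] at h3
    linarith
  have hsq : 0 < Real.sqrt n := Real.sqrt_pos.2 hnpos
  have hsmall : 9 * E ≤ 9 / 16 * (c / Real.sqrt n * A) := by
    have h1 : 16000 / c ≤ Real.sqrt n := Real.le_sqrt_of_sq_le hnc
    have h2 : (n : ℝ) / 1000 * Real.exp (-(n / 1000 : ℝ)) ≤ 1 := by
      have h3 := Real.add_one_le_exp (n / 1000 : ℝ)
      calc (n : ℝ) / 1000 * Real.exp (-(n / 1000 : ℝ)) ≤
            Real.exp (n / 1000 : ℝ) * Real.exp (-(n / 1000 : ℝ)) :=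
            mul_le_mul_of_nonneg_right (by linarith) (Real.exp_pos _).le
        _ = 1 := by rw [← Real.exp_add]; simp
    have h4 : Real.exp (-(n / 1000 : ℝ)) ≤ 1 / 16 * (c / Real.sqrt n) := by
      have h5 : Real.sqrt n * Real.sqrt n = n := Real.mul_self_sqrt hnpos.le
      have h6 : Real.exp (-(n / 1000 : ℝ)) ≤ 1000 / n := by
        rw [le_div_iff₀ hnpos]
        linarith
      refine h6.trans ?_
      have h7 : 16000 ≤ Real.sqrt n * c := by
        rwa [div_le_iff₀ hc] at h1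
      have h8 : c / Real.sqrt n = c * Real.sqrt n / n := by
        rw [div_eq_div_iff hsq.ne' hnpos.ne']
        linear_combination (-c) * h5
      rw [h8, ← mul_div_assoc, div_le_div_iff_of_pos_right hnpos]
      linarith
    rw [hE]
    have := mul_le_mul_of_nonneg_right h4 hA0
    linarith
  rw [cauchy_gg n hd, norm_mul] at htot
  have hfac : (0 : ℝ) < n.factorial := by exact_mod_cast n.factorial_pos
  have hnorm : ‖(2 * Real.pi * I / n.factorial : ℂ)‖ = 2 * Real.pi / n.factorial := by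
    rw [norm_div, norm_mul, norm_mul, Complex.norm_I, Complex.norm_real, Complex.norm_natCast,
      Real.norm_eq_abs, abs_of_pos Real.pi_pos]
    simp
  rw [hnorm] at htot
  have hfin : 7 / 16 * (c / Real.sqrt n * A) ≤ 2 * Real.pi / n.factorial * ‖iteratedDeriv n F p‖ := by
    linarith
  have h8 : 7 / 16 * (c / Real.sqrt n * A) ≤ 7 * (‖iteratedDeriv n F p‖ / n.factorial) := by
    refine hfin.trans ?_
    rw [div_mul_eq_mul_div, mul_div_assoc]
    refine mul_le_mul_of_nonneg_right (by linarith) (by positivity)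
  have h9 : 1 / 16 * (c / Real.sqrt n * A) * n.factorial ≤ ‖iteratedDeriv n F p‖ := by
    rw [← le_div_iff₀ hfac]
    linarith
  have h10 : Real.exp (-(n / 10000 : ℝ)) * ‖F (p + 1)‖ ≤ A := by
    refine le_trans (le_of_eq ?_) hlow
    congr 2
    ring
  calc (n.factorial : ℝ) * (c / 16 / Real.sqrt n * (Real.exp (-(n / 10000)) * ‖F (p + 1)‖))
      ≤ (n.factorial : ℝ) * (c / 16 / Real.sqrt n * A) := by
        gcongr
    _ = 1 / 16 * (c / Real.sqrt n * A) * n.factorial := by ring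
    _ ≤ ‖iteratedDeriv n F p‖ := h9

end Pool.Agent.H156R2.DZArc
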