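import Pool.Agent.H156R2.Tail

set_option autoImplicit false

namespace Pool.Agent.H156R2

open Finset

/-- sign matrix with `‖A x‖² = n ‖x‖²`. -/
def IsHad {ι κ : Type} [Fintype ι] [Fintype κ] (A : ι → κ → ℤ) (n : ℕ) : Prop :=
  (∀ i j, A i j = 1 ∨ A i j = -1) ∧
    ∀ x : κ → ℝ, ∑ i, (∑ j, (A i j : ℝ) * x j) ^ 2 = n * ∑ j, x j ^ 2

/-- Sylvester doubling -/
def dbl {ι : Type} (H : ι → ι → ℤ) : (ι ⊕ ι) → (ι ⊕ ι) → ℤ
  | Sum.inl i, Sum.inl j => H i j
  | Sum.inl i, Sum.inr j => H i j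
  | Sum.inr i, Sum.inl j => H i j
  | Sum.inr i, Sum.inr j => - H i j

lemma dbl_isHad {ι : Type} [Fintype ι] (H : ι → ι → ℤ) (n : ℕ) (h : IsHad H n) :
    IsHad (dbl H) (2 * n) := by
  obtain ⟨h1, h2⟩ := h
  refine ⟨?_, ?_⟩
  · rintro (i | i) (j | j)
    · exact h1 i j
    · exact h1 i j
    · exact h1 i j
    · show -H i j = 1 ∨ -H i j = -1
      rcases h1 i j with h | h <;> simp [h]
  · intro x
    have a1 := h2 (fun j => x (Sum.inl j))
    have a2 := h2 (fun j => x (Sum.inr j))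
    simp only [Fintype.sum_sum_type]
    have e1 : ∀ i, (∑ j, ((dbl H (Sum.inl i) (Sum.inl j) : ℤ) : ℝ) * x (Sum.inl j)
        + ∑ j, ((dbl H (Sum.inl i) (Sum.inr j) : ℤ) : ℝ) * x (Sum.inr j))
        = (∑ j, (H i j : ℝ) * x (Sum.inl j)) + ∑ j, (H i j : ℝ) * x (Sum.inr j) := fun i => rfl
    have e2 : ∀ i, (∑ j, ((dbl H (Sum.inr i) (Sum.inl j) : ℤ) : ℝ) * x (Sum.inl j)
        + ∑ j, ((dbl H (Sum.inr i) (Sum.inr j) : ℤ) : ℝ) * x (Sum.inr j))
        = (∑ j, (H i j : ℝ) * x (Sum.inl j)) - ∑ j, (H i j : ℝ) * x (Sum.inr j) := by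
      intro i
      have : ∀ j, ((dbl H (Sum.inr i) (Sum.inr j) : ℤ) : ℝ) * x (Sum.inr j)
          = - ((H i j : ℝ) * x (Sum.inr j)) := by
        intro j
        show ((-H i j : ℤ) : ℝ) * x (Sum.inr j) = _
        push_cast
        ring
      simp only [this, Finset.sum_neg_distrib]
      rfl
    simp only [e1, e2]
    rw [← Finset.sum_add_distrib]
    have e3 : ∀ i, ((∑ j, (H i j : ℝ) * x (Sum.inl j)) + ∑ j, (H i j : ℝ) * x (Sum.inr j)) ^ 2
        + ((∑ j, (H i j : ℝ) * x (Sum.inl j)) - ∑ j, (H i j : ℝ) * x (Sum.inr j)) ^ 2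
        = 2 * (∑ j, (H i j : ℝ) * x (Sum.inl j)) ^ 2
          + 2 * (∑ j, (H i j : ℝ) * x (Sum.inr j)) ^ 2 := by
      intro i
      ring
    simp only [e3]
    rw [Finset.sum_add_distrib, ← Finset.mul_sum, ← Finset.mul_sum, a1, a2]
    push_cast
    ring

lemma isHad_transport {ι κ ι' κ' : Type} [Fintype ι] [Fintype κ] [Fintype ι'] [Fintype κ']
    (A : ι → κ → ℤ) (n : ℕ) (h : IsHad A n) (e : ι' ≃ ι) (f : κ' ≃ κ) :
    IsHad (fun i j => A (e i) (f j)) n := by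
  obtain ⟨h1, h2⟩ := h
  refine ⟨fun i j => h1 _ _, ?_⟩
  intro x
  have a := h2 (fun j => x (f.symm j))
  have e1 : ∀ i, (∑ j, (A i j : ℝ) * x (f.symm j)) = ∑ j, (A i (f j) : ℝ) * x j := by
    intro i
    rw [← Equiv.sum_comp f]
    simp
  simp only [e1] at a
  rw [Equiv.sum_comp f.symm (fun j => x j ^ 2)] at a
  rw [← a]
  exact Equiv.sum_comp e (fun i => (∑ j, (A i (f j) : ℝ) * x j) ^ 2)

lemma exists_had (k : ℕ) : ∃ H : Fin (2 ^ k) → Fin (2 ^ k) → ℤ, IsHad H (2 ^ k) := by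
  induction k with
  | zero =>
    refine ⟨fun _ _ => 1, fun _ _ => Or.inl rfl, ?_⟩
    intro x
    simp
  | succ k ih =>
    obtain ⟨H, hH⟩ := ih
    have h1 := dbl_isHad H _ hH
    have e : Fin (2 ^ (k + 1)) ≃ Fin (2 ^ k) ⊕ Fin (2 ^ k) :=
      (finCongr (by rw [pow_succ]; ring)).trans finSumFinEquiv.symm
    have h2 := isHad_transport _ _ h1 e e
    refine ⟨fun i j => dbl H (e i) (e j), ?_⟩
    convert h2 using 1
    rw [pow_succ, mul_comm]

/-- number of Boolean vectors in a Hamming ball. -/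
lemma ball_card {ι : Type} [Fintype ι] [DecidableEq ι] (y0 : ι → Bool) (r : ℕ) :
    ((univ.filter (fun y : ι → Bool => (univ.filter (fun i => y i ≠ y0 i)).card ≤ r)).card : ℝ)
      ≤ 128 ^ r * (129 / 128) ^ (Fintype.card ι) := by
  have h1 : ∑ y : ι → Bool, (1 / 128 : ℝ) ^ (univ.filter (fun i => y i ≠ y0 i)).card
      = (129 / 128) ^ (Fintype.card ι) := by
    have e1 : ∀ y : ι → Bool, (1 / 128 : ℝ) ^ (univ.filter (fun i => y i ≠ y0 i)).card
        = ∏ i, (if y i ≠ y0 i then (1 / 128 : ℝ) else 1) := by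
      intro y
      rw [Finset.prod_ite]
      simp
    rw [Finset.sum_congr rfl (fun y _ => e1 y)]
    have h0 := Finset.prod_univ_sum (fun _ : ι => (univ : Finset Bool))
      (fun i b => (if b ≠ y0 i then (1 / 128 : ℝ) else 1))
    rw [Fintype.piFinset_univ] at h0
    rw [← h0]
    have e2 : ∀ i, ∑ b : Bool, (if b ≠ y0 i then (1 / 128 : ℝ) else 1) = 129 / 128 := by
      intro i
      cases y0 i <;> simp <;> norm_num
    rw [Finset.prod_congr rfl (fun i _ => e2 i)]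
    simp [div_pow]
  have h2 : ((univ.filter (fun y : ι → Bool =>
      (univ.filter (fun i => y i ≠ y0 i)).card ≤ r)).card : ℝ) * (1 / 128) ^ r
      ≤ (129 / 128) ^ (Fintype.card ι) := by
    rw [← h1, ← nsmul_eq_mul, ← Finset.sum_const]
    calc ∑ y ∈ univ.filter (fun y : ι → Bool => (univ.filter (fun i => y i ≠ y0 i)).card ≤ r),
          (1 / 128 : ℝ) ^ r
        ≤ ∑ y ∈ univ.filter (fun y : ι → Bool => (univ.filter (fun i => y i ≠ y0 i)).card ≤ r),
          (1 / 128 : ℝ) ^ (univ.filter (fun i => y i ≠ y0 i)).card := by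
          apply Finset.sum_le_sum
          intro y hy
          apply pow_le_pow_of_le_one (by norm_num) (by norm_num)
          exact (Finset.mem_filter.mp hy).2
      _ ≤ _ := Finset.sum_le_sum_of_subset_of_nonneg (Finset.filter_subset _ _)
          (fun _ _ _ => by positivity)
  have h3 : ((1:ℝ) / 128) ^ r * 128 ^ r = 1 := by
    rw [← mul_pow]; norm_num
  calc ((univ.filter (fun y : ι → Bool =>
      (univ.filter (fun i => y i ≠ y0 i)).card ≤ r)).card : ℝ)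
      = (((univ.filter (fun y : ι → Bool =>
      (univ.filter (fun i => y i ≠ y0 i)).card ≤ r)).card : ℝ) * (1 / 128) ^ r) * 128 ^ r := by
        rw [mul_assoc, h3, mul_one]
    _ ≤ (129 / 128) ^ (Fintype.card ι) * 128 ^ r :=
        mul_le_mul_of_nonneg_right h2 (by positivity)
    _ = _ := by ring

lemma ball_card' {ι : Type} [Fintype ι] [DecidableEq ι] (M : ℕ) (hι : Fintype.card ι = 2048 * M)
    (y0 : ι → Bool) :
    ((univ.filter (fun y : ι → Bool =>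
      (univ.filter (fun i => y i ≠ y0 i)).card ≤ 9 * M)).card : ℝ) ≤ 2 ^ (128 * M) := by
  refine (ball_card y0 (9 * M)).trans ?_
  rw [hι, pow_mul, pow_mul, pow_mul, ← mul_pow]
  apply pow_le_pow_left₀ (by positivity)
  have h1 : ((129:ℝ) / 128) ^ 128 ≤ 3 := by norm_num
  have h2 : ((129:ℝ) / 128) ^ 2048 = (((129:ℝ) / 128) ^ 128) ^ 16 := by rw [← pow_mul]
  rw [h2]
  calc (128:ℝ) ^ 9 * (((129:ℝ) / 128) ^ 128) ^ 16 ≤ 128 ^ 9 * 3 ^ 16 := by
        apply mul_le_mul_of_nonneg_left _ (by positivity)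
        exact pow_le_pow_left₀ (by positivity) h1 16
    _ ≤ 2 ^ 128 := by norm_num

lemma abs_add_sub (U V : ℝ) : |U + V| + |U - V| = 2 * max |U| |V| := by
  rcases abs_cases U with ⟨h1, h1'⟩ | ⟨h1, h1'⟩ <;>
  rcases abs_cases V with ⟨h2, h2'⟩ | ⟨h2, h2'⟩ <;>
  rcases abs_cases (U + V) with ⟨h3, h3'⟩ | ⟨h3, h3'⟩ <;>
  rcases abs_cases (U - V) with ⟨h4, h4'⟩ | ⟨h4, h4'⟩ <;>
  rcases max_cases |U| |V| with ⟨h5, h5'⟩ | ⟨h5, h5'⟩ <;>
  linarith

/-- local deviation -/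
noncomputable def dev (σ U V : ℝ) : ℝ := (|U + V| - σ) ^ 2 + (|U - V| - σ) ^ 2

lemma dev_eq (σ U V : ℝ) :
    dev σ U V = 2 * U ^ 2 + 2 * V ^ 2 - 2 * σ * (|U + V| + |U - V|) + 2 * σ ^ 2 := by
  unfold dev
  have h1 : |U + V| ^ 2 = (U + V) ^ 2 := sq_abs _
  have h2 : |U - V| ^ 2 = (U - V) ^ 2 := sq_abs _
  nlinarith

/-- target modulus of `v` given `u` -/
noncomputable def tgt (σ U : ℝ) : ℝ := if |U| < σ / 2 then σ else 0

lemma tgt_bound (σ U V : ℝ) (hσ : 0 < σ) : (|V| - tgt σ U) ^ 2 ≤ 3 * dev σ U V := by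
  rw [dev_eq, abs_add_sub]
  have hU : 0 ≤ |U| := abs_nonneg U
  have hV : 0 ≤ |V| := abs_nonneg V
  unfold tgt
  rw [← sq_abs U, ← sq_abs V]
  generalize |U| = a at *
  generalize |V| = c at *
  split_ifs with h
  · rcases max_cases a c with ⟨h5, h5'⟩ | ⟨h5, h5'⟩
    · rw [h5]
      have h1 : (c - σ) ^ 2 ≤ σ ^ 2 := by
        apply sq_le_sq'
        · linarith
        · linarith
      have h2 : (σ / 2) ^ 2 ≤ (σ - a) ^ 2 := by
        apply pow_le_pow_left₀ (by linarith)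
        linarith
      nlinarith
    · rw [h5]
      nlinarith [sq_nonneg (c - σ), sq_nonneg a]
  · push Not at h
    rcases max_cases a c with ⟨h5, h5'⟩ | ⟨h5, h5'⟩
    · rw [h5]
      nlinarith [sq_nonneg (a - σ), sq_nonneg c]
    · rw [h5]
      nlinarith [sq_nonneg (5 * c - 6 * σ), pow_le_pow_left₀ (by linarith : 0 ≤ σ / 2) h 2]

section count

variable {ι : Type} [Fintype ι] [DecidableEq ι]

/-- transform of the first / second block -/
noncomputable def tr (H : ι → ι → ℤ) (y : ι → Bool) (i : ι) : ℝ := ∑ j, (H i j : ℝ) * sg (y j)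

lemma dbl_sum (H : ι → ι → ℤ) (x : ι ⊕ ι → Bool) :
    ∑ i, |∑ j, (dbl H i j : ℝ) * sg (x j)|
      = ∑ i, (|tr H (x ∘ Sum.inl) i + tr H (x ∘ Sum.inr) i|
          + |tr H (x ∘ Sum.inl) i - tr H (x ∘ Sum.inr) i|) := by
  rw [Fintype.sum_sum_type, Finset.sum_add_distrib]
  congr 1
  · apply Finset.sum_congr rfl
    intro i _
    rw [Fintype.sum_sum_type]
    rfl
  · apply Finset.sum_congr rfl
    intro i _
    rw [Fintype.sum_sum_type]
    congr 1
    have : ∀ j, ((dbl H (Sum.inr i) (Sum.inr j) : ℤ) : ℝ) * sg (x (Sum.inr j))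
          = - ((H i j : ℝ) * sg (x (Sum.inr j))) := by
        intro j
        show ((-H i j : ℤ) : ℝ) * _ = _
        push_cast
        ring
    simp only [this, Finset.sum_neg_distrib]
    rfl

lemma tr_sq (H : ι → ι → ℤ) (hH : IsHad H (Fintype.card ι)) (y : ι → Bool) :
    ∑ i, tr H y i ^ 2 = (Fintype.card ι : ℝ) ^ 2 := by
  have := hH.2 (fun j => sg (y j))
  unfold tr
  rw [this]
  have h2 : ∀ j, sg (y j) ^ 2 = 1 := fun j => by rw [sq, sg_sq]
  simp [h2]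
  ring

lemma tr_diff (H : ι → ι → ℤ) (hH : IsHad H (Fintype.card ι)) (y y' : ι → Bool) :
    ∑ i, (tr H y i - tr H y' i) ^ 2
      = (Fintype.card ι : ℝ) * (4 * (univ.filter (fun j => y j ≠ y' j)).card) := by
  have := hH.2 (fun j => sg (y j) - sg (y' j))
  have h1 : ∀ i, tr H y i - tr H y' i = ∑ j, (H i j : ℝ) * (sg (y j) - sg (y' j)) := by
    intro i
    unfold tr
    rw [← Finset.sum_sub_distrib]
    apply Finset.sum_congr rfl
    intro j _
    ring
  simp only [h1]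
  rw [this]
  congr 1
  have h2 : ∀ j, (sg (y j) - sg (y' j)) ^ 2 = 4 * (if y j ≠ y' j then (1:ℝ) else 0) := by
    intro j
    cases y j <;> cases y' j <;> simp [sg] <;> norm_num
  rw [Finset.sum_congr rfl (fun j _ => h2 j), ← Finset.mul_sum, Finset.sum_boole]

/-- near-flat vectors -/
def NF (H : ι → ι → ℤ) (σ : ℝ) (x : ι ⊕ ι → Bool) : Prop :=
  (1 - 3 / 2 ^ 14) * (2 * (Fintype.card ι : ℝ)) * σ ≤ ∑ i, |∑ j, (dbl H i j : ℝ) * sg (x j)|

lemma nf_dev (H : ι → ι → ℤ) (hH : IsHad H (Fintype.card ι)) (σ : ℝ) (hσ : 0 < σ)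
    (hσ2 : σ ^ 2 = 2 * (Fintype.card ι : ℝ)) (x : ι ⊕ ι → Bool) (hx : NF H σ x) :
    ∑ i, (|tr H (x ∘ Sum.inr) i| - tgt σ (tr H (x ∘ Sum.inl) i)) ^ 2
      ≤ 9 / 2048 * (Fintype.card ι : ℝ) ^ 2 := by
  unfold NF at hx
  rw [dbl_sum] at hx
  have h1 := tr_sq H hH (x ∘ Sum.inl)
  have h2 := tr_sq H hH (x ∘ Sum.inr)
  have h3 : ∑ i, dev σ (tr H (x ∘ Sum.inl) i) (tr H (x ∘ Sum.inr) i)
      = 8 * (Fintype.card ι : ℝ) ^ 2 - 2 * σ * ∑ i, (|tr H (x ∘ Sum.inl) i + tr H (x ∘ Sum.inr) i|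
          + |tr H (x ∘ Sum.inl) i - tr H (x ∘ Sum.inr) i|) := by
    simp only [dev_eq]
    rw [Finset.sum_add_distrib, Finset.sum_sub_distrib, Finset.sum_add_distrib,
      ← Finset.mul_sum, ← Finset.mul_sum, ← Finset.mul_sum, h1, h2]
    simp only [Finset.sum_const, Finset.card_univ, nsmul_eq_mul]
    rw [hσ2]
    ring
  have h4 : ∑ i, (|tr H (x ∘ Sum.inr) i| - tgt σ (tr H (x ∘ Sum.inl) i)) ^ 2
      ≤ ∑ i, 3 * dev σ (tr H (x ∘ Sum.inl) i) (tr H (x ∘ Sum.inr) i) :=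
    Finset.sum_le_sum (fun i _ => tgt_bound σ _ _ hσ)
  rw [← Finset.mul_sum, h3] at h4
  refine h4.trans ?_
  have h5 := mul_le_mul_of_nonneg_left hx (by linarith : 0 ≤ 2 * σ)
  have h6 : 2 * σ * ((1 - 3 / 2 ^ 14) * (2 * (Fintype.card ι : ℝ)) * σ)
      = 8 * (1 - 3 / 2 ^ 14) * (Fintype.card ι : ℝ) ^ 2 := by
    calc 2 * σ * ((1 - 3 / 2 ^ 14) * (2 * (Fintype.card ι : ℝ)) * σ)
        = 4 * (1 - 3 / 2 ^ 14) * (Fintype.card ι : ℝ) * σ ^ 2 := by ring
      _ = _ := by rw [hσ2]; ring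
  rw [h6] at h5
  nlinarith

/-- set where the second block has to be large -/
noncomputable def ZZ (H : ι → ι → ℤ) (σ : ℝ) (y : ι → Bool) : Finset ι :=
  univ.filter (fun i => |tr H y i| < σ / 2)

lemma card_ZZ (M : ℕ) (hι : Fintype.card ι = 2048 * M) (hM : 0 < M)
    (H : ι → ι → ℤ) (hH : IsHad H (Fintype.card ι)) (σ : ℝ) (hσ : 0 < σ)
    (hσ2 : σ ^ 2 = 2 * (Fintype.card ι : ℝ)) (x : ι ⊕ ι → Bool) (hx : NF H σ x) :
    (ZZ H σ (x ∘ Sum.inl)).card ≤ 1280 * M := by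
  have h1 := nf_dev H hH σ hσ hσ2 x hx
  have h2 := tr_sq H hH (x ∘ Sum.inr)
  have h3 : ∑ i ∈ ZZ H σ (x ∘ Sum.inl), σ ^ 2
      ≤ ∑ i ∈ ZZ H σ (x ∘ Sum.inl), (11 / 10 * tr H (x ∘ Sum.inr) i ^ 2
        + 11 * (|tr H (x ∘ Sum.inr) i| - tgt σ (tr H (x ∘ Sum.inl) i)) ^ 2) := by
    apply Finset.sum_le_sum
    intro i hi
    have hi' : |tr H (x ∘ Sum.inl) i| < σ / 2 := (Finset.mem_filter.mp hi).2
    unfold tgt
    rw [if_pos hi', ← sq_abs (tr H (x ∘ Sum.inr) i)]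
    generalize |tr H (x ∘ Sum.inr) i| = c
    nlinarith [sq_nonneg (11 * c - 10 * σ)]
  rw [Finset.sum_const, nsmul_eq_mul, hσ2, Finset.sum_add_distrib, ← Finset.mul_sum,
    ← Finset.mul_sum] at h3
  have h4 : ∑ i ∈ ZZ H σ (x ∘ Sum.inl), tr H (x ∘ Sum.inr) i ^ 2 ≤ (Fintype.card ι : ℝ) ^ 2 := by
    rw [← h2]
    exact Finset.sum_le_sum_of_subset_of_nonneg (Finset.subset_univ _)
      (fun _ _ _ => sq_nonneg _)
  have h5 : ∑ i ∈ ZZ H σ (x ∘ Sum.inl),
      (|tr H (x ∘ Sum.inr) i| - tgt σ (tr H (x ∘ Sum.inl) i)) ^ 2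
      ≤ 9 / 2048 * (Fintype.card ι : ℝ) ^ 2 := by
    refine le_trans ?_ h1
    exact Finset.sum_le_sum_of_subset_of_nonneg (Finset.subset_univ _)
      (fun _ _ _ => sq_nonneg _)
  have hM' : (0:ℝ) < M := by exact_mod_cast hM
  have hc : (Fintype.card ι : ℝ) = 2048 * M := by exact_mod_cast hι
  rw [hc] at h3 h4 h5
  have h6 : ((ZZ H σ (x ∘ Sum.inl)).card : ℝ) * (4096 * M) ≤ (1280 * M) * (4096 * M) := by
    nlinarith
  have h7 : ((ZZ H σ (x ∘ Sum.inl)).card : ℝ) ≤ 1280 * M :=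
    le_of_mul_le_mul_right h6 (by positivity)
  exact_mod_cast h7

lemma ham_bound (M : ℕ) (hι : Fintype.card ι = 2048 * M) (hM : 0 < M)
    (H : ι → ι → ℤ) (hH : IsHad H (Fintype.card ι)) (σ : ℝ) (hσ : 0 < σ)
    (hσ2 : σ ^ 2 = 2 * (Fintype.card ι : ℝ)) (x x' : ι ⊕ ι → Bool) (hx : NF H σ x)
    (hx' : NF H σ x') (h1 : x ∘ Sum.inl = x' ∘ Sum.inl)
    (h2 : ∀ i ∈ ZZ H σ (x ∘ Sum.inl), (0 ≤ tr H (x ∘ Sum.inr) i ↔ 0 ≤ tr H (x' ∘ Sum.inr) i)) :
    (univ.filter (fun j => x (Sum.inr j) ≠ x' (Sum.inr j))).card ≤ 9 * M := by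
  have d1 := nf_dev H hH σ hσ hσ2 x hx
  have d2 := nf_dev H hH σ hσ hσ2 x' hx'
  rw [← h1] at d2
  have d3 := tr_diff H hH (x ∘ Sum.inr) (x' ∘ Sum.inr)
  have d4 : ∑ i, (tr H (x ∘ Sum.inr) i - tr H (x' ∘ Sum.inr) i) ^ 2
      ≤ ∑ i, (2 * (|tr H (x ∘ Sum.inr) i| - tgt σ (tr H (x ∘ Sum.inl) i)) ^ 2
        + 2 * (|tr H (x' ∘ Sum.inr) i| - tgt σ (tr H (x ∘ Sum.inl) i)) ^ 2) := by
    apply Finset.sum_le_sum
    intro i _
    by_cases hi : |tr H (x ∘ Sum.inl) i| < σ / 2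
    · have h3 := h2 i (Finset.mem_filter.mpr ⟨Finset.mem_univ _, hi⟩)
      have h4 : (tr H (x ∘ Sum.inr) i - tr H (x' ∘ Sum.inr) i) ^ 2
          = (|tr H (x ∘ Sum.inr) i| - |tr H (x' ∘ Sum.inr) i|) ^ 2 := by
        by_cases h5 : 0 ≤ tr H (x ∘ Sum.inr) i
        · rw [abs_of_nonneg h5, abs_of_nonneg (h3.mp h5)]
        · have h6 : ¬ 0 ≤ tr H (x' ∘ Sum.inr) i := fun h => h5 (h3.mpr h)
          push Not at h5 h6
          rw [abs_of_neg h5, abs_of_neg h6]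
          ring
      rw [h4]
      generalize |tr H (x ∘ Sum.inr) i| = a
      generalize |tr H (x' ∘ Sum.inr) i| = c
      generalize tgt σ (tr H (x ∘ Sum.inl) i) = g
      nlinarith [sq_nonneg (a + c - 2 * g)]
    · unfold tgt
      rw [if_neg hi, sub_zero, sub_zero, sq_abs, sq_abs]
      nlinarith [sq_nonneg (tr H (x ∘ Sum.inr) i + tr H (x' ∘ Sum.inr) i)]
  rw [d3, Finset.sum_add_distrib, ← Finset.mul_sum, ← Finset.mul_sum] at d4
  have hM' : (0:ℝ) < M := by exact_mod_cast hM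
  have hc : (Fintype.card ι : ℝ) = 2048 * M := by exact_mod_cast hι
  rw [hc] at d1 d2 d4
  have h6 : ((univ.filter (fun j => x (Sum.inr j) ≠ x' (Sum.inr j))).card : ℝ) * (8192 * M)
      ≤ (9 * M) * (8192 * M) := by
    have e : (univ.filter (fun j => (x ∘ Sum.inr) j ≠ (x' ∘ Sum.inr) j))
      = (univ.filter (fun j => x (Sum.inr j) ≠ x' (Sum.inr j))) := rfl
    rw [e] at d4
    nlinarith
  have h7 := le_of_mul_le_mul_right h6 (by positivity)
  exact_mod_cast h7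

open Classical in
/-- main counting lemma: few near-flat vectors. -/
lemma nf_count (M : ℕ) (hι : Fintype.card ι = 2048 * M) (hM : 0 < M)
    (H : ι → ι → ℤ) (hH : IsHad H (Fintype.card ι)) (σ : ℝ) (hσ : 0 < σ)
    (hσ2 : σ ^ 2 = 2 * (Fintype.card ι : ℝ)) :
    (univ.filter (fun x : ι ⊕ ι → Bool => NF H σ x)).card ≤ 2 ^ (3456 * M) := by
  have key : ∀ y ∈ (univ : Finset (ι → Bool)),
      ((univ.filter (fun x : ι ⊕ ι → Bool => NF H σ x)).filter
        (fun x => x ∘ Sum.inl = y)).card ≤ 2 ^ (1408 * M) := by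
    intro y _
    set F := (univ.filter (fun x : ι ⊕ ι → Bool => NF H σ x)).filter
        (fun x => x ∘ Sum.inl = y) with hF
    rcases F.eq_empty_or_nonempty with hE | ⟨x0, hx0⟩
    · rw [hE]; simp
    have hx0' := Finset.mem_filter.mp hx0
    have hx0n : NF H σ x0 := (Finset.mem_filter.mp hx0'.1).2
    have hZ : (ZZ H σ y).card ≤ 1280 * M := by
      rw [← hx0'.2]
      exact card_ZZ M hι hM H hH σ hσ hσ2 x0 hx0n
    have hb := Finset.card_le_mul_card_image_of_maps_to (s := F)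
      (t := (ZZ H σ y).powerset)
      (f := fun x => (ZZ H σ y).filter (fun i => 0 ≤ tr H (x ∘ Sum.inr) i))
      (fun x _ => Finset.mem_powerset.mpr (Finset.filter_subset _ _)) (2 ^ (128 * M)) ?_
    · rw [Finset.card_powerset] at hb
      refine hb.trans ?_
      calc 2 ^ (128 * M) * 2 ^ (ZZ H σ y).card ≤ 2 ^ (128 * M) * 2 ^ (1280 * M) :=
            Nat.mul_le_mul_left _ (Nat.pow_le_pow_right (by norm_num) hZ)
        _ = 2 ^ (1408 * M) := by rw [← pow_add]; congr 1; ring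
    · intro P _
      set G := F.filter (fun x => (ZZ H σ y).filter (fun i => 0 ≤ tr H (x ∘ Sum.inr) i) = P) with hG
      rcases G.eq_empty_or_nonempty with hE | ⟨x1, hx1⟩
      · rw [hE]; simp
      have hx1' := Finset.mem_filter.mp hx1
      have hx1F := Finset.mem_filter.mp hx1'.1
      have hx1n : NF H σ x1 := (Finset.mem_filter.mp hx1F.1).2
      have hball := ball_card' M hι (x1 ∘ Sum.inr)
      have hball' : (univ.filter (fun z : ι → Bool =>
        (univ.filter (fun i => z i ≠ (x1 ∘ Sum.inr) i)).card ≤ 9 * M)).card ≤ 2 ^ (128 * M) := by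
        exact_mod_cast hball
      refine le_trans ?_ hball'
      apply Finset.card_le_card_of_injOn (fun x => x ∘ Sum.inr)
      · intro x hx
        have hx' := Finset.mem_filter.mp hx
        have hxF := Finset.mem_filter.mp hx'.1
        have hxn : NF H σ x := (Finset.mem_filter.mp hxF.1).2
        simp only [coe_filter, mem_univ, true_and, Set.mem_ofPred_eq]
        apply ham_bound M hι hM H hH σ hσ hσ2 x x1 hxn hx1n
        · rw [hxF.2, hx1F.2]
        · intro i hi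
          rw [hxF.2] at hi
          have e1 : i ∈ (ZZ H σ y).filter (fun i => 0 ≤ tr H (x ∘ Sum.inr) i)
            ↔ i ∈ (ZZ H σ y).filter (fun i => 0 ≤ tr H (x1 ∘ Sum.inr) i) := by
            rw [hx'.2, hx1'.2]
          simp only [Finset.mem_filter, hi, true_and] at e1
          exact e1
      · intro x hx x' hx' hxx
        have a1 := Finset.mem_filter.mp (Finset.mem_filter.mp hx).1
        have a2 := Finset.mem_filter.mp (Finset.mem_filter.mp hx').1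
        funext j
        rcases j with j | j
        · have := congrFun (a1.2.trans a2.2.symm) j
          exact this
        · have := congrFun hxx j
          exact this
  have h1 := Finset.card_le_mul_card_image_of_maps_to
    (s := univ.filter (fun x : ι ⊕ ι → Bool => NF H σ x)) (t := (univ : Finset (ι → Bool)))
    (f := fun x => x ∘ Sum.inl) (fun _ _ => Finset.mem_univ _) (2 ^ (1408 * M)) key
  refine h1.trans (le_of_eq ?_)
  rw [Finset.card_univ, Fintype.card_fun, Fintype.card_bool, hι, ← pow_add]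
  congr 1
  ring

end count

end Pool.Agent.H156R2
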