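import Mathlib

set_option autoImplicit false

open Finset

namespace Pool.Agent.H156R2

/-- the sign of a Boolean -/
def sg (b : Bool) : ℝ := if b then 1 else -1

lemma sg_cases (b : Bool) : sg b = 1 ∨ sg b = -1 := by
  cases b <;> simp [sg]

lemma sum_exp_eq {n : ℕ} (F : Finset (Fin n)) (c : Fin n → ℝ) (l : ℝ) :
    ∑ x : Fin n → Bool, Real.exp (l * ∑ j ∈ F, c j * sg (x j)) ≤
      Real.exp (l ^ 2 * (∑ j ∈ F, c j ^ 2) / 2) * Fintype.card (Fin n → Bool) := by
  have h1 : ∀ x : Fin n → Bool, Real.exp (l * ∑ j ∈ F, c j * sg (x j)) =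
      ∏ j : Fin n, (if j ∈ F then Real.exp (l * c j * sg (x j)) else 1) := by
    intro x
    rw [Finset.prod_ite_mem, Finset.univ_inter, ← Real.exp_sum, Finset.mul_sum]
    congr 1
    apply Finset.sum_congr rfl
    intro j _
    ring
  simp_rw [h1]
  have h2 : ∑ x : Fin n → Bool, ∏ j : Fin n, (if j ∈ F then Real.exp (l * c j * sg (x j)) else 1) =
      ∏ j : Fin n, ∑ b : Bool, (if j ∈ F then Real.exp (l * c j * sg b) else 1) := by
    rw [Finset.prod_univ_sum]
    apply Finset.sum_congr _ (fun _ _ => rfl)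
    ext x
    simp
  rw [h2]
  have h3 : ∀ j : Fin n, ∑ b : Bool, (if j ∈ F then Real.exp (l * c j * sg b) else 1) ≤
      2 * (if j ∈ F then Real.exp (l ^ 2 * c j ^ 2 / 2) else 1) := by
    intro j
    by_cases hj : j ∈ F
    · simp only [hj, if_true, Fintype.sum_bool, sg]
      have h4 := Real.cosh_le_exp_half_sq (l * c j)
      rw [Real.cosh_eq] at h4
      have e1 : (l * c j) ^ 2 / 2 = l ^ 2 * c j ^ 2 / 2 := by ring
      rw [e1] at h4
      simp only [Bool.false_eq_true, if_false, mul_one, mul_neg]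
      linarith
    · simp [hj]
  calc ∏ j : Fin n, ∑ b : Bool, (if j ∈ F then Real.exp (l * c j * sg b) else 1)
      ≤ ∏ j : Fin n, (2 * (if j ∈ F then Real.exp (l ^ 2 * c j ^ 2 / 2) else 1)) := by
        apply Finset.prod_le_prod
        · intro j _
          apply Finset.sum_nonneg
          intro b _
          split_ifs
          · positivity
          · norm_num
        · intro j _
          exact h3 j
    _ = _ := by
        rw [Finset.prod_mul_distrib, Finset.prod_ite_mem, Finset.univ_inter, ← Real.exp_sum]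
        rw [mul_comm]
        congr 1
        · congr 1
          rw [Finset.mul_sum, Finset.sum_div]
        · simp

/-- one-sided tail -/
lemma tail1 {n : ℕ} (F : Finset (Fin n)) (c : Fin n → ℝ) (r : ℝ) (hr : 0 ≤ r)
    (hs : 0 < ∑ j ∈ F, c j ^ 2) :
    (((univ : Finset (Fin n → Bool)).filter
      (fun x => Real.sqrt (∑ j ∈ F, c j ^ 2) * r < ∑ j ∈ F, c j * sg (x j))).card : ℝ) ≤
      Real.exp (-(r ^ 2 / 2)) * Fintype.card (Fin n → Bool) := by
  obtain ⟨s, hsd⟩ : ∃ s, s = Real.sqrt (∑ j ∈ F, c j ^ 2) := ⟨_, rfl⟩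
  have hs0 : 0 < s := by rw [hsd]; exact Real.sqrt_pos.2 hs
  have hs2 : ∑ j ∈ F, c j ^ 2 = s ^ 2 := by rw [hsd, Real.sq_sqrt hs.le]
  rw [← hsd]
  obtain ⟨l, hl⟩ : ∃ l, l = r / s := ⟨_, rfl⟩
  have hl0 : 0 ≤ l := by rw [hl]; positivity
  have h1 := sum_exp_eq F c l
  rw [hs2] at h1
  have hls : l * s = r := by rw [hl]; field_simp
  have e1 : l ^ 2 * s ^ 2 / 2 = r ^ 2 / 2 := by rw [← hls]; ring
  rw [e1] at h1
  have h2 : (((univ : Finset (Fin n → Bool)).filter
      (fun x => s * r < ∑ j ∈ F, c j * sg (x j))).card : ℝ) * Real.exp (r ^ 2) ≤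
      ∑ x : Fin n → Bool, Real.exp (l * ∑ j ∈ F, c j * sg (x j)) := by
    rw [← nsmul_eq_mul, ← Finset.sum_const]
    calc _ ≤ ∑ x ∈ ((univ : Finset (Fin n → Bool)).filter
              (fun x => s * r < ∑ j ∈ F, c j * sg (x j))),
                Real.exp (l * ∑ j ∈ F, c j * sg (x j)) := by
          apply Finset.sum_le_sum
          intro x hx
          rw [Finset.mem_filter] at hx
          apply Real.exp_le_exp.2
          have := mul_le_mul_of_nonneg_left hx.2.le hl0
          have e2 : l * (s * r) = r ^ 2 := by rw [← mul_assoc, hls]; ring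
          linarith
      _ ≤ _ := Finset.sum_le_sum_of_subset_of_nonneg (Finset.filter_subset _ _)
          (fun _ _ _ => (Real.exp_pos _).le)
  have h3 : Real.exp (-(r ^ 2 / 2)) * Real.exp (r ^ 2) = Real.exp (r ^ 2 / 2) := by
    rw [← Real.exp_add]; congr 1; ring
  have h4 := h2.trans h1
  rw [← h3] at h4
  have h5 : (0 : ℝ) < Real.exp (r ^ 2) := Real.exp_pos _
  rw [mul_right_comm] at h4
  exact le_of_mul_le_mul_right h4 h5

/-- two-sided tail (Hoeffding) -/
theorem tail {n : ℕ} (F : Finset (Fin n)) (c : Fin n → ℝ) (r : ℝ) (hr : 0 ≤ r) :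
    (((univ : Finset (Fin n → Bool)).filter
      (fun x => Real.sqrt (∑ j ∈ F, c j ^ 2) * r < |∑ j ∈ F, c j * sg (x j)|)).card : ℝ) ≤
      2 * Real.exp (-(r ^ 2 / 2)) * Fintype.card (Fin n → Bool) := by
  rcases (Finset.sum_nonneg (fun j _ => sq_nonneg (c j)) : 0 ≤ ∑ j ∈ F, c j ^ 2).eq_or_lt with h | h
  · have h0 : ∀ j ∈ F, c j = 0 := by
      intro j hj
      have := (Finset.sum_eq_zero_iff_of_nonneg (fun j _ => sq_nonneg (c j))).1 h.symm j hj
      exact pow_eq_zero_iff (two_ne_zero) |>.1 this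
    have h1 : ((univ : Finset (Fin n → Bool)).filter
      (fun x => Real.sqrt (∑ j ∈ F, c j ^ 2) * r < |∑ j ∈ F, c j * sg (x j)|)) = ∅ := by
      rw [Finset.filter_eq_empty_iff]
      intro x _
      rw [← h, Finset.sum_eq_zero (fun j hj => by rw [h0 j hj, zero_mul])]
      simp
    rw [h1]
    simp only [Finset.card_empty, Nat.cast_zero]
    positivity
  · have h1 := tail1 F c r hr h
    have h2 := tail1 F (fun j => - c j) r hr (by simpa using h)
    simp only [neg_sq, neg_mul, Finset.sum_neg_distrib] at h2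
    have h3 : ((univ : Finset (Fin n → Bool)).filter
      (fun x => Real.sqrt (∑ j ∈ F, c j ^ 2) * r < |∑ j ∈ F, c j * sg (x j)|)) ⊆
      (univ : Finset (Fin n → Bool)).filter
      (fun x => Real.sqrt (∑ j ∈ F, c j ^ 2) * r < ∑ j ∈ F, c j * sg (x j)) ∪
      (univ : Finset (Fin n → Bool)).filter
      (fun x => Real.sqrt (∑ j ∈ F, c j ^ 2) * r < -∑ j ∈ F, c j * sg (x j)) := by
      intro x hx
      rw [Finset.mem_filter] at hx
      rw [Finset.mem_union, Finset.mem_filter, Finset.mem_filter]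
      rcases lt_abs.1 hx.2 with h | h
      · exact Or.inl ⟨hx.1, h⟩
      · exact Or.inr ⟨hx.1, h⟩
    have h4 := (Finset.card_le_card h3).trans (Finset.card_union_le _ _)
    have h5 := (Nat.cast_le (α := ℝ)).2 h4
    push_cast at h5
    linarith

end Pool.Agent.H156R2
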