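import Mathlib
import Pool.Agent.H156R2.Hoeff
import Pool.Agent.Helper208.Rainbow.LLL

set_option autoImplicit false

open Finset

namespace Pool.Agent.H156R2

/-- level of an entry -/
lemma exists_level (a : ℝ) (h1 : |a| ≤ 1) :
    ∃ k : ℕ, a ≠ 0 → ((1 / 2 : ℝ) ^ (k + 1) < |a| ∧ |a| ≤ (1 / 2 : ℝ) ^ k) := by
  by_cases ha : a = 0
  · exact ⟨0, fun h => absurd ha h⟩
  · obtain ⟨k, hk⟩ := exists_nat_pow_near_of_lt_one (abs_pos.2 ha) h1
      (by norm_num : (0 : ℝ) < 1 / 2) (by norm_num)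
    exact ⟨k, fun _ => hk⟩

/-- main step: the block form -/
lemma block {m n : ℕ} (a : Fin m → Fin n → ℝ) (hcol : ∀ j, ∑ i, a i j ^ 2 ≤ 1)
    (lev : Fin m → Fin n → ℕ)
    (hlev : ∀ i j, a i j ≠ 0 → ((1 / 2 : ℝ) ^ (lev i j + 1) < |a i j| ∧
      |a i j| ≤ (1 / 2 : ℝ) ^ lev i j))
    (d : ℝ) (hd : 0 < d) (hd2 : d ≤ 1 / 2) (K : ℕ) :
    ∃ x : Fin n → Bool, ∀ i : Fin m, ∀ k < K,
      |∑ j ∈ univ.filter (fun j => a i j ≠ 0 ∧ lev i j = k), a i j * sg (x j)| ≤
        Real.sqrt (∑ j ∈ univ.filter (fun j => a i j ≠ 0 ∧ lev i j = k), a i j ^ 2) *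
        Real.sqrt (2 * Real.log (2 / d) + 4 * k * Real.log 2 +
          16 * d * (univ.filter (fun j => a i j ≠ 0 ∧ lev i j = k)).card) := by
  classical
  obtain ⟨F, hF⟩ : ∃ F : Fin m × Fin K → Finset (Fin n), F = fun p =>
    univ.filter (fun j => a p.1 j ≠ 0 ∧ lev p.1 j = p.2) := ⟨_, rfl⟩
  obtain ⟨R, hR⟩ : ∃ R : Fin m × Fin K → ℝ, R = fun p =>
    Real.sqrt (2 * Real.log (2 / d) + 4 * (p.2 : ℕ) * Real.log 2 +
          16 * d * (F p).card) := ⟨_, rfl⟩
  obtain ⟨A, hA⟩ : ∃ A : Fin m × Fin K → Finset (Fin n → Bool), A = fun p =>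
    univ.filter (fun x => Real.sqrt (∑ j ∈ F p, a p.1 j ^ 2) * R p <
      |∑ j ∈ F p, a p.1 j * sg (x j)|) := ⟨_, rfl⟩
  have hlogd : 0 ≤ Real.log (2 / d) := by
    apply Real.log_nonneg
    rw [le_div_iff₀ hd]; linarith
  have hlog2 : 0 ≤ Real.log 2 := Real.log_nonneg (by norm_num)
  obtain ⟨ω, hω⟩ := Pool.Agent.Helper208.Rainbow.lll_exp A F
    (by
      intro p x y hxy
      rw [hA]
      simp only [mem_filter, mem_univ, true_and]
      rw [Finset.sum_congr rfl (fun j hj => by rw [hxy j hj] :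
        ∀ j ∈ F p, a p.1 j * sg (x j) = a p.1 j * sg (y j))])
    (fun p => d * (1 / 4 : ℝ) ^ (p.2 : ℕ)) (fun p => by positivity)
    (fun p => by
      have : (1 / 4 : ℝ) ^ (p.2 : ℕ) ≤ 1 := pow_le_one₀ (by norm_num) (by norm_num)
      nlinarith)
    (4 * d)
    (by
      intro j
      have h1 : ∀ i : Fin m, ∀ k : Fin K, j ∈ F (i, k) →
          d * (1 / 4 : ℝ) ^ (k : ℕ) ≤ 4 * d * a i j ^ 2 := by
        intro i k hj
        rw [hF] at hj
        simp only [mem_filter, mem_univ, true_and] at hj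
        have h2 := (hlev i j hj.1).1
        rw [hj.2] at h2
        have h3 : ((1 / 2 : ℝ) ^ ((k : ℕ) + 1)) ^ 2 ≤ |a i j| ^ 2 :=
          pow_le_pow_left₀ (by positivity) h2.le 2
        rw [sq_abs] at h3
        have h4 : ((1 / 2 : ℝ) ^ ((k : ℕ) + 1)) ^ 2 = (1 / 4) * (1 / 4 : ℝ) ^ (k : ℕ) := by
          rw [← pow_mul, mul_comm, pow_mul, pow_succ]; norm_num; ring
        rw [h4] at h3
        nlinarith
      calc ∑ p ∈ univ.filter (fun p => j ∈ F p), d * (1 / 4 : ℝ) ^ ((p : Fin m × Fin K).2 : ℕ)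
          = ∑ i : Fin m, ∑ k : Fin K, if j ∈ F (i, k) then d * (1 / 4 : ℝ) ^ (k : ℕ) else 0 := by
            rw [Finset.sum_filter, Fintype.sum_prod_type]
        _ ≤ ∑ i : Fin m, 4 * d * a i j ^ 2 := by
            apply Finset.sum_le_sum
            intro i _
            by_cases hex : ∃ k : Fin K, j ∈ F (i, k)
            · obtain ⟨k, hk⟩ := hex
              rw [Finset.sum_eq_single k]
              · rw [if_pos hk]; exact h1 i k hk
              · intro k' _ hkk
                rw [if_neg]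
                intro hk'
                rw [hF] at hk hk'
                simp only [mem_filter, mem_univ, true_and] at hk hk'
                exact hkk (Fin.ext (hk'.2.symm.trans hk.2))
              · intro h; exact absurd (mem_univ _) h
            · push Not at hex
              rw [Finset.sum_eq_zero (fun k _ => if_neg (hex k))]
              positivity
        _ = 4 * d * ∑ i : Fin m, a i j ^ 2 := by rw [Finset.mul_sum]
        _ ≤ 4 * d := by nlinarith [hcol j])
    (by
      intro p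
      have h1 := tail (F p) (a p.1) (R p) (by rw [hR]; positivity)
      rw [hA]
      refine h1.trans ?_
      apply mul_le_mul_of_nonneg_right _ (by positivity)
      have h2 : R p ^ 2 = 2 * Real.log (2 / d) + 4 * (p.2 : ℕ) * Real.log 2 +
          16 * d * (F p).card := by
        rw [hR]
        apply Real.sq_sqrt
        positivity
      rw [h2]
      have h3 : -((2 * Real.log (2 / d) + 4 * (p.2 : ℕ) * Real.log 2 +
          16 * d * (F p).card) / 2) = -Real.log (2 / d) + (((p.2 : ℕ) : ℝ) * (-Real.log 4)) +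
          -(2 * ((F p).card * (4 * d))) := by
        have : Real.log 4 = 2 * Real.log 2 := by
          rw [← Real.log_rpow (by norm_num)]; norm_num
        rw [this]; ring
      rw [h3, Real.exp_add, Real.exp_add, Real.exp_neg, Real.exp_log (by positivity),
        Real.exp_nat_mul, Real.exp_neg, Real.exp_log (by norm_num)]
      have h4 : 2 * ((2 / d)⁻¹ * (4 : ℝ)⁻¹ ^ (p.2 : ℕ) * Real.exp (-(2 * ((F p).card * (4 * d))))) =
        d * (1 / 4 : ℝ) ^ (p.2 : ℕ) * Real.exp (-(2 * ((F p).card * (4 * d)))) := by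
        rw [one_div]; field_simp
      rw [h4])
  refine ⟨ω, fun i k hk => ?_⟩
  have := hω (i, ⟨k, hk⟩)
  rw [hA] at this
  simp only [mem_filter, mem_univ, true_and, not_lt] at this
  rw [hR, hF] at this
  exact this

end Pool.Agent.H156R2
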