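import Mathlib
import Pool.Agent.H156R2.Local

set_option autoImplicit false

open Finset

namespace Pool.Agent.H156R2

lemma block_bound (n P d e s2 q T : ℝ) (hn : 0 ≤ n) (hP : 0 ≤ P) (hd : 0 ≤ d) (he : 0 < e)
    (hq : 0 ≤ q) (hs : s2 ≤ q ^ 2 * n) (hT : q * n ≤ 2 * T) :
    Real.sqrt s2 * Real.sqrt (P + 16 * d * n) ≤
      (8 * Real.sqrt d + 2 * e) * T + q * P / (4 * e) := by
  have h1 : Real.sqrt s2 ≤ q * Real.sqrt n := by
    have := Real.sqrt_le_sqrt hs
    rwa [Real.sqrt_mul (by positivity), Real.sqrt_sq hq] at this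
  obtain ⟨r, hr⟩ : ∃ r, r = Real.sqrt d := ⟨_, rfl⟩
  have hr0 : 0 ≤ r := by rw [hr]; positivity
  have hrd : d = r ^ 2 := by rw [hr, Real.sq_sqrt hd]
  obtain ⟨g, hg⟩ : ∃ g, g = P / (4 * e) := ⟨_, rfl⟩
  have hg0 : 0 ≤ g := by rw [hg]; positivity
  have hgP : P = 4 * e * g := by rw [hg]; field_simp
  have h2 : Real.sqrt n * Real.sqrt (P + 16 * d * n) ≤ (4 * r + e) * n + g := by
    rw [← Real.sqrt_mul hn]
    apply Real.sqrt_le_iff.2
    refine ⟨by positivity, ?_⟩
    rw [hgP, hrd]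
    have h3 : ((4 * r + e) * n + g) ^ 2 = n * (4 * e * g + 16 * r ^ 2 * n) +
      ((e * n - g) ^ 2 + 8 * r * e * n ^ 2 + 8 * r * n * g) := by ring
    rw [h3]
    have : 0 ≤ (e * n - g) ^ 2 + 8 * r * e * n ^ 2 + 8 * r * n * g := by positivity
    linarith
  calc Real.sqrt s2 * Real.sqrt (P + 16 * d * n)
      ≤ q * Real.sqrt n * Real.sqrt (P + 16 * d * n) :=
        mul_le_mul_of_nonneg_right h1 (Real.sqrt_nonneg _)
    _ = q * (Real.sqrt n * Real.sqrt (P + 16 * d * n)) := by ring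
    _ ≤ q * ((4 * r + e) * n + g) := mul_le_mul_of_nonneg_left h2 hq
    _ = (4 * r + e) * (q * n) + q * g := by ring
    _ ≤ (4 * r + e) * (2 * T) + q * g := by
        have := mul_le_mul_of_nonneg_left hT (by positivity : 0 ≤ 4 * r + e)
        linarith
    _ = _ := by rw [hg, hr]; ring

lemma geom_sum_le (K : ℕ) : ∑ k ∈ range K, (1 / 2 : ℝ) ^ k ≤ 2 := by
  have h : ∀ K : ℕ, ∑ k ∈ range K, (1 / 2 : ℝ) ^ k = 2 - 2 * (1 / 2 : ℝ) ^ K := by
    intro K
    induction K with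
    | zero => simp
    | succ K ih => rw [Finset.sum_range_succ, ih, pow_succ]; ring
  rw [h]
  have : (0 : ℝ) ≤ (1 / 2 : ℝ) ^ K := by positivity
  linarith

lemma geom_sum_le' (K : ℕ) : ∑ k ∈ range K, (1 / 2 : ℝ) ^ k * k ≤ 2 := by
  have h : ∀ K : ℕ, ∑ k ∈ range K, (1 / 2 : ℝ) ^ k * k = 2 - (2 * K + 2) * (1 / 2 : ℝ) ^ K := by
    intro K
    induction K with
    | zero => simp
    | succ K ih => rw [Finset.sum_range_succ, ih, pow_succ]; push_cast; ring
  rw [h]
  have : (0 : ℝ) ≤ (2 * K + 2) * (1 / 2 : ℝ) ^ K := by positivity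
  linarith

theorem master {m n : ℕ} (a : Fin m → Fin n → ℝ) (hcol : ∀ j, ∑ i, a i j ^ 2 ≤ 1)
    (d e : ℝ) (hd : 0 < d) (hd2 : d ≤ 1 / 2) (he : 0 < e) :
    ∃ x : Fin n → ℝ, (∀ j, x j = 1 ∨ x j = -1) ∧ ∀ i : Fin m,
      |∑ j, a i j * x j| ≤ (8 * Real.sqrt d + 2 * e) * (∑ j, |a i j|) +
        (Real.log (2 / d) + 2 * Real.log 2) / e := by
  classical
  have hab : ∀ i j, |a i j| ≤ 1 := by
    intro i j
    have h1 : a i j ^ 2 ≤ 1 :=
      (Finset.single_le_sum (f := fun i => a i j ^ 2) (fun i _ => sq_nonneg _)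
        (mem_univ i)).trans (hcol j)
    rwa [sq_le_one_iff_abs_le_one] at h1
  choose lev hlev using fun i j => exists_level (a i j) (hab i j)
  obtain ⟨K, hK⟩ : ∃ K : ℕ, ∀ i j, lev i j < K :=
    ⟨(univ : Finset (Fin m × Fin n)).sup (fun p => lev p.1 p.2) + 1, fun i j =>
      Nat.lt_succ_of_le (Finset.le_sup (f := fun p : Fin m × Fin n => lev p.1 p.2)
        (mem_univ (i, j)))⟩
  obtain ⟨x, hx⟩ := block a hcol lev hlev d hd hd2 K
  refine ⟨fun j => sg (x j), fun j => sg_cases _, fun i => ?_⟩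
  have hlogd : 0 ≤ Real.log (2 / d) := by
    apply Real.log_nonneg
    rw [le_div_iff₀ hd]; linarith
  have hlog2 : 0 ≤ Real.log 2 := Real.log_nonneg (by norm_num)
  obtain ⟨F, hF⟩ : ∃ F : ℕ → Finset (Fin n), F = fun k =>
    univ.filter (fun j => a i j ≠ 0 ∧ lev i j = k) := ⟨_, rfl⟩
  have hsplit : ∀ f : Fin n → ℝ, (∀ j, a i j = 0 → f j = 0) →
      ∑ j, f j = ∑ k ∈ range K, ∑ j ∈ F k, f j := by
    intro f hf
    have h1 : ∑ j, f j = ∑ j ∈ univ.filter (fun j => a i j ≠ 0), f j := by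
      symm
      apply Finset.sum_filter_of_ne
      intro j _ hj h0
      exact hj (hf j h0)
    rw [h1, ← Finset.sum_fiberwise_of_maps_to (t := range K) (g := lev i)
      (fun j _ => mem_range.2 (hK i j))]
    apply Finset.sum_congr rfl
    intro k _
    rw [hF, Finset.filter_filter]
  have h1 : ∀ k ∈ range K, |∑ j ∈ F k, a i j * sg (x j)| ≤
      (8 * Real.sqrt d + 2 * e) * (∑ j ∈ F k, |a i j|) +
        (1 / 2 : ℝ) ^ k * (2 * Real.log (2 / d) + 4 * k * Real.log 2) / (4 * e) := by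
    intro k hk
    have h2 := hx i k (mem_range.1 hk)
    have h3 : univ.filter (fun j => a i j ≠ 0 ∧ lev i j = k) = F k := by rw [hF]
    rw [h3] at h2
    have hP : 0 ≤ 2 * Real.log (2 / d) + 4 * (k : ℝ) * Real.log 2 := by positivity
    have hq : (0 : ℝ) ≤ (1 / 2 : ℝ) ^ k := by positivity
    refine h2.trans (block_bound ((F k).card : ℝ) _ d e _ ((1 / 2 : ℝ) ^ k)
      (∑ j ∈ F k, |a i j|) (Nat.cast_nonneg _) hP hd.le he hq ?_ ?_)
    · calc ∑ j ∈ F k, a i j ^ 2 ≤ ∑ j ∈ F k, ((1 / 2 : ℝ) ^ k) ^ 2 := by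
            apply Finset.sum_le_sum
            intro j hj
            rw [hF] at hj
            simp only [mem_filter, mem_univ, true_and] at hj
            have h4 := (hlev i j hj.1).2
            rw [hj.2] at h4
            rw [← sq_abs]
            exact pow_le_pow_left₀ (abs_nonneg _) h4 2
        _ = _ := by rw [Finset.sum_const, nsmul_eq_mul]; ring
    · calc (1 / 2 : ℝ) ^ k * ((F k).card : ℝ) = 2 * ∑ j ∈ F k, (1 / 2 : ℝ) ^ (k + 1) := by
            rw [Finset.sum_const, nsmul_eq_mul]; ring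
        _ ≤ 2 * ∑ j ∈ F k, |a i j| := by
            apply mul_le_mul_of_nonneg_left _ (by norm_num)
            apply Finset.sum_le_sum
            intro j hj
            rw [hF] at hj
            simp only [mem_filter, mem_univ, true_and] at hj
            have h4 := (hlev i j hj.1).1
            rw [hj.2] at h4
            exact h4.le
  calc |∑ j, a i j * sg (x j)| = |∑ k ∈ range K, ∑ j ∈ F k, a i j * sg (x j)| := by
        rw [hsplit]
        intro j hj; rw [hj, zero_mul]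
    _ ≤ ∑ k ∈ range K, |∑ j ∈ F k, a i j * sg (x j)| := Finset.abs_sum_le_sum_abs _ _
    _ ≤ ∑ k ∈ range K, ((8 * Real.sqrt d + 2 * e) * (∑ j ∈ F k, |a i j|) +
        (1 / 2 : ℝ) ^ k * (2 * Real.log (2 / d) + 4 * k * Real.log 2) / (4 * e)) :=
        Finset.sum_le_sum h1
    _ = (8 * Real.sqrt d + 2 * e) * (∑ j, |a i j|) +
        (2 * Real.log (2 / d) * ∑ k ∈ range K, (1 / 2 : ℝ) ^ k +
          4 * Real.log 2 * ∑ k ∈ range K, (1 / 2 : ℝ) ^ k * k) / (4 * e) := by
        rw [hsplit (fun j => |a i j|) (fun j hj => by rw [hj, abs_zero]),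
          Finset.sum_add_distrib, ← Finset.mul_sum]
        congr 1
        rw [Finset.mul_sum, Finset.mul_sum, ← Finset.sum_add_distrib, Finset.sum_div]
        apply Finset.sum_congr rfl
        intro k _
        ring
    _ ≤ (8 * Real.sqrt d + 2 * e) * (∑ j, |a i j|) +
        (2 * Real.log (2 / d) * 2 + 4 * Real.log 2 * 2) / (4 * e) := by
        have h5 := mul_le_mul_of_nonneg_left (geom_sum_le K)
          (by positivity : 0 ≤ 2 * Real.log (2 / d))
        have h6 := mul_le_mul_of_nonneg_left (geom_sum_le' K)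
          (by positivity : 0 ≤ 4 * Real.log 2)
        have h7 := div_le_div_of_nonneg_right (add_le_add h5 h6) (by positivity : 0 ≤ 4 * e)
        linarith
    _ = _ := by field_simp; ring

theorem local_komlos {m n : ℕ} (a : Fin m → Fin n → ℝ) (hcol : ∀ j, ∑ i, a i j ^ 2 ≤ 1)
    (e : ℝ) (he : 0 < e) (he1 : e ≤ 1) :
    ∃ x : Fin n → ℝ, (∀ j, x j = 1 ∨ x j = -1) ∧ ∀ i : Fin m,
      |∑ j, a i j * x j| ≤ e * (∑ j, |a i j|) + (8 * Real.log (1 / e) + 31) / e := by
  obtain ⟨x, hx1, hx2⟩ := master a hcol (e ^ 2 / 256) (e / 4) (by positivity)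
    (by nlinarith) (by positivity)
  refine ⟨x, hx1, fun i => (hx2 i).trans ?_⟩
  have h1 : Real.sqrt (e ^ 2 / 256) = e / 16 := by
    rw [show e ^ 2 / 256 = (e / 16) ^ 2 by ring, Real.sqrt_sq (by positivity)]
  rw [h1]
  have h2 : Real.log (2 / (e ^ 2 / 256)) = 2 * Real.log (1 / e) + 9 * Real.log 2 := by
    rw [show 2 / (e ^ 2 / 256) = (1 / e) ^ 2 * 2 ^ 9 by field_simp; norm_num,
      Real.log_mul (by positivity) (by positivity), Real.log_pow, Real.log_pow]
    norm_num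
  rw [h2]
  have h3 : Real.log 2 < 0.6931471808 := Real.log_two_lt_d9
  have h4 : (2 * Real.log (1 / e) + 9 * Real.log 2 + 2 * Real.log 2) / (e / 4) ≤
      (8 * Real.log (1 / e) + 31) / e := by
    rw [div_le_div_iff₀ (by positivity) he]
    nlinarith
  have h5 : (8 * (e / 16) + 2 * (e / 4)) = e := by ring
  rw [h5]
  linarith

end Pool.Agent.H156R2
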