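import Pool.Agent.H156R2.Had

set_option autoImplicit false

namespace Pool.Agent.H156R2

open Finset

/-- number of rows of signs keeping `|c + Σ r_j x_j| ≤ t`. -/
lemma row_count {d : ℕ} (c t : ℝ) (x : Fin d → Bool) :
    ((univ.filter (fun r : Fin d → Bool => |c + ∑ j, sg (r j) * sg (x j)| ≤ t)).card : ℝ)
      ≤ 2 ^ d * q d (|c| - t) := by
  have hq : 2 ^ d * q d (|c| - t)
      = ((univ.filter (fun r : Fin d → Bool => |c| - t ≤ rs r)).card : ℝ) := by
    unfold q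
    field_simp
  rw [hq]
  have hnat : (univ.filter (fun r : Fin d → Bool => |c + ∑ j, sg (r j) * sg (x j)| ≤ t)).card
      ≤ (univ.filter (fun r : Fin d → Bool => |c| - t ≤ rs r)).card := by
    rcases le_total 0 c with hc | hc
    · apply Finset.card_le_card_of_injOn (fun r j => !(xor (r j) (x j)))
      · intro r hr
        simp only [coe_filter, mem_univ, true_and, Set.mem_ofPred_eq] at hr ⊢
        have h1 : rs (fun j => !(xor (r j) (x j))) = - ∑ j, sg (r j) * sg (x j) := by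
          unfold rs
          rw [← Finset.sum_neg_distrib]
          apply Finset.sum_congr rfl
          intro j _
          rw [sg_not, sg_mul]
        rw [h1, abs_of_nonneg hc]
        have := (abs_le.mp hr).2
        linarith
      · intro r _ r' _ hrr
        funext j
        have := congrFun hrr j
        simp only at this
        revert this
        cases r j <;> cases r' j <;> cases x j <;> simp
    · apply Finset.card_le_card_of_injOn (fun r j => (xor (r j) (x j)))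
      · intro r hr
        simp only [coe_filter, mem_univ, true_and, Set.mem_ofPred_eq] at hr ⊢
        have h1 : rs (fun j => (xor (r j) (x j))) = ∑ j, sg (r j) * sg (x j) := by
          unfold rs
          apply Finset.sum_congr rfl
          intro j _
          rw [sg_mul]
        rw [h1, abs_of_nonpos hc]
        have := (abs_le.mp hr).1
        linarith
      · intro r _ r' _ hrr
        funext j
        have := congrFun hrr j
        simp only at this
        revert this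
        cases r j <;> cases r' j <;> cases x j <;> simp
  exact_mod_cast hnat

section perc

variable (h : ℕ) (σ : ℝ)

lemma mu_upper (_hσ : 0 < σ) (hh : (2 * (h:ℝ)) = σ ^ 2 / 2 ^ 28) :
    p0 h * σ ≤ 2 ^ 14 := by
  have h1 := p0_upper h
  have hp := p0_pos h
  have h2 : (p0 h * σ) ^ 2 ≤ (2 ^ 14) ^ 2 := by
    have : σ ^ 2 / 2 ^ 28 * p0 h ^ 2 ≤ 1 := by
      rw [← hh]
      nlinarith [sq_nonneg (p0 h)]
    rw [mul_pow]
    have e : ((2:ℝ) ^ 14) ^ 2 = 2 ^ 28 := by norm_num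
    have e2 : p0 h ^ 2 * σ ^ 2 = (σ ^ 2 / 2 ^ 28 * p0 h ^ 2) * 2 ^ 28 := by ring
    rw [e, e2]
    linarith
  exact le_of_sq_le_sq h2 (by positivity)

lemma mu_lower (hσ : 0 < σ) (h1h : 1 ≤ h) (hh : (2 * (h:ℝ)) = σ ^ 2 / 2 ^ 28) :
    7 / 10 * 2 ^ 14 ≤ p0 h * σ := by
  have h1 := p0_lower h h1h
  have hp := p0_pos h
  have h2 : (7 / 10 * 2 ^ 14) ^ 2 ≤ (p0 h * σ) ^ 2 := by
    have h3 : 1 ≤ 2 * (σ ^ 2 / 2 ^ 28) * p0 h ^ 2 := by
      rw [← hh]
      linarith
    rw [mul_pow (p0 h)]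
    have h4 : 2 * (σ ^ 2 / 2 ^ 28) * p0 h ^ 2 = 2 * (p0 h ^ 2 * σ ^ 2) / 2 ^ 28 := by ring
    rw [h4, le_div_iff₀ (by positivity)] at h3
    norm_num at h3 ⊢
    linarith
  exact le_of_sq_le_sq h2 (by positivity)

lemma claimI (hσ : 0 < σ) (h1h : 1 ≤ h) (hh : (2 * (h:ℝ)) = σ ^ 2 / 2 ^ 28)
    (hp : p0 h ≤ 1 / 2 ^ 15) (y : ℝ) (hy : 0 ≤ y) :
    q (2 * h) (σ * y - (1 + 1 / 2 ^ 28) * σ)
      ≤ Real.exp (-Real.log 2 + 6 / 2 ^ 14 - (p0 h * σ / 2) * (y ^ 2 - 1)) := by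
  have hmu1 := mu_upper h σ hσ hh
  have hmu2 := mu_lower h σ hσ h1h hh
  have hp0 := p0_pos h
  have hlog := Real.log_two_lt_d9
  have hlog0 : 0 < Real.log 2 := Real.log_pos (by norm_num)
  set μ := p0 h * σ with hμ
  obtain ⟨z, hz⟩ : ∃ z, z = y - 1 := ⟨_, rfl⟩
  have hy' : y = z + 1 := by rw [hz]; ring
  subst hy'
  rcases le_or_gt z (-(3 / 2 ^ 14)) with hc | hc
  · -- far below
    refine (q_le_one _ _).trans ?_
    rw [← Real.exp_zero]
    apply Real.exp_le_exp.mpr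
    have h1 : (z + 1) ^ 2 - 1 ≤ z := by nlinarith
    have h2 : μ / 2 * ((z + 1) ^ 2 - 1) ≤ μ / 2 * z :=
      mul_le_mul_of_nonneg_left h1 (by positivity)
    have h3 : μ / 2 * z ≤ μ / 2 * (-(3 / 2 ^ 14)) :=
      mul_le_mul_of_nonneg_left hc (by positivity)
    have h4 : μ / 2 * (-(3 / 2 ^ 14)) ≤ (7 / 10 * 2 ^ 14) / 2 * (-(3 / 2 ^ 14)) := by
      have : (0:ℝ) ≤ 3 / 2 ^ 14 := by positivity
      nlinarith
    norm_num at h4 ⊢
    linarith
  rcases le_or_gt z (3 / 2 ^ 14) with hc2 | hc2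
  · -- middle
    refine (q_tangent h _).trans ?_
    have h1 : (1 + p0 h) / 2 ≤ Real.exp (-Real.log 2 + p0 h) := by
      rw [Real.exp_add, Real.exp_neg, Real.exp_log (by norm_num)]
      have := Real.add_one_le_exp (p0 h)
      linarith
    calc (1 + p0 h) / 2 * Real.exp (-(p0 h * (σ * (z + 1) - (1 + 1 / 2 ^ 28) * σ)))
        ≤ Real.exp (-Real.log 2 + p0 h) *
            Real.exp (-(p0 h * (σ * (z + 1) - (1 + 1 / 2 ^ 28) * σ))) :=
          mul_le_mul_of_nonneg_right h1 (Real.exp_pos _).le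
      _ = Real.exp (-Real.log 2 + p0 h - μ * (z - 1 / 2 ^ 28)) := by
          rw [← Real.exp_add]
          congr 1
          rw [hμ]
          ring
      _ ≤ _ := by
          apply Real.exp_le_exp.mpr
          have h2 : z ^ 2 ≤ (3 / 2 ^ 14) ^ 2 := by
            apply sq_le_sq'
            · linarith
            · linarith
          have h3 : μ / 2 * z ^ 2 ≤ 2 ^ 14 / 2 * (3 / 2 ^ 14) ^ 2 :=
            mul_le_mul (by linarith) h2 (sq_nonneg _) (by positivity)
          have h4 : μ / 2 * ((z + 1) ^ 2 - 1) = μ * z + μ / 2 * z ^ 2 := by ring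
          rw [h4]
          have h5 : μ * (1 / 2 ^ 28) ≤ 2 ^ 14 * (1 / 2 ^ 28) :=
            mul_le_mul_of_nonneg_right hmu1 (by positivity)
          norm_num at h3 h5 hp ⊢
          linarith
  · -- far above: Chernoff
    have hs : 0 ≤ σ * (z + 1) - (1 + 1 / 2 ^ 28) * σ := by
      have : 0 ≤ σ * (z - 1 / 2 ^ 28) := by
        apply mul_nonneg hσ.le
        norm_num at hc2 ⊢
        linarith
      linarith
    refine (q_chernoff (2 * h) _ (by omega) hs).trans ?_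
    apply Real.exp_le_exp.mpr
    have h1 : (σ * (z + 1) - (1 + 1 / 2 ^ 28) * σ) ^ 2 / (2 * ((2 * h : ℕ) : ℝ))
        = (z - 1 / 2 ^ 28) ^ 2 * 2 ^ 28 / 2 := by
      push_cast
      rw [hh]
      field_simp
      ring
    rw [h1]
    have h4 : μ / 2 * ((z + 1) ^ 2 - 1) = μ * z + μ / 2 * z ^ 2 := by ring
    rw [h4]
    have hz0 : 0 ≤ z := by
      have : (0:ℝ) < 3 / 2 ^ 14 := by positivity
      linarith
    have h5 : μ * z ≤ 2 ^ 14 * z := mul_le_mul_of_nonneg_right hmu1 hz0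
    have h6 : μ / 2 * z ^ 2 ≤ 2 ^ 14 / 2 * z ^ 2 :=
      mul_le_mul_of_nonneg_right (by linarith) (sq_nonneg _)
    obtain ⟨a, ha⟩ : ∃ a, a = z * 2 ^ 14 := ⟨_, rfl⟩
    have hza : z = a / 2 ^ 14 := by rw [ha]; field_simp
    have ha3 : 3 ≤ a := by
      rw [ha]
      rw [div_lt_iff₀ (by positivity)] at hc2
      linarith
    rw [hza] at h5 h6 ⊢
    have h7 : (a / 2 ^ 14 - 1 / 2 ^ 28) ^ 2 * 2 ^ 28 / 2 = (a - 1 / 2 ^ 14) ^ 2 / 2 := by
      ring
    rw [h7]
    have h8 : (2:ℝ) ^ 14 * (a / 2 ^ 14) = a := by ring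
    have h9 : (2:ℝ) ^ 14 / 2 * (a / 2 ^ 14) ^ 2 = a ^ 2 / 2 ^ 15 := by ring
    rw [h8] at h5
    rw [h9] at h6
    have h10 : Real.log 2 + a + a ^ 2 / 2 ^ 15 ≤ (a - 1 / 2 ^ 14) ^ 2 / 2 := by
      obtain ⟨w, hw⟩ : ∃ w, w = a - 3 := ⟨_, rfl⟩
      have hw0 : 0 ≤ w := by linarith
      have haw : a = w + 3 := by rw [hw]; ring
      rw [haw]
      norm_num
      nlinarith [sq_nonneg w]
    have : (0:ℝ) < 6 / 2 ^ 14 := by positivity
    linarith

lemma claimII (hσ : 0 < σ) (h1h : 1 ≤ h) (hh : (2 * (h:ℝ)) = σ ^ 2 / 2 ^ 28)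
    (y : ℝ) (hy : 0 ≤ y) :
    q (2 * h) (σ * y - (1 + 1 / 2 ^ 28) * σ)
      ≤ Real.exp ((1 + 1 / 2 ^ 14) ^ 2 + 2 ^ 14 * (y - y ^ 2)) := by
  rcases le_or_gt y 1 with hc | hc
  · refine (q_le_one _ _).trans ?_
    rw [← Real.exp_zero]
    apply Real.exp_le_exp.mpr
    have : 0 ≤ y - y ^ 2 := by nlinarith
    positivity
  obtain ⟨z, hz⟩ : ∃ z, z = y - 1 := ⟨_, rfl⟩
  have hy' : y = z + 1 := by rw [hz]; ring
  subst hy'
  have hz0 : 0 < z := by linarith
  rcases le_or_gt z (1 / 2 ^ 28) with hc2 | hc2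
  · refine (q_le_one _ _).trans ?_
    rw [← Real.exp_zero]
    apply Real.exp_le_exp.mpr
    norm_num at hc2 ⊢
    nlinarith
  · have hs : 0 ≤ σ * (z + 1) - (1 + 1 / 2 ^ 28) * σ := by
      have : 0 ≤ σ * (z - 1 / 2 ^ 28) := by
        apply mul_nonneg hσ.le
        linarith
      linarith
    refine (q_chernoff (2 * h) _ (by omega) hs).trans ?_
    apply Real.exp_le_exp.mpr
    have h1 : (σ * (z + 1) - (1 + 1 / 2 ^ 28) * σ) ^ 2 / (2 * ((2 * h : ℕ) : ℝ))
        = (z - 1 / 2 ^ 28) ^ 2 * 2 ^ 28 / 2 := by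
      push_cast
      rw [hh]
      field_simp
      ring
    rw [h1]
    obtain ⟨a, ha⟩ : ∃ a, a = z * 2 ^ 14 := ⟨_, rfl⟩
    have hza : z = a / 2 ^ 14 := by rw [ha]; field_simp
    rw [hza]
    have h7 : (a / 2 ^ 14 - 1 / 2 ^ 28) ^ 2 * 2 ^ 28 / 2 = (a - 1 / 2 ^ 14) ^ 2 / 2 := by
      ring
    have h8 : (2:ℝ) ^ 14 * ((a / 2 ^ 14 + 1) - (a / 2 ^ 14 + 1) ^ 2) = - a - a ^ 2 / 2 ^ 14 := by
      ring
    rw [h7, h8]
    have h9 : (0:ℝ) ≤ (a - 1 / 2 ^ 14) ^ 2 / 2 - a - a ^ 2 / 2 ^ 14 + (1 + 1 / 2 ^ 14) ^ 2 := by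
      norm_num
      nlinarith [sq_nonneg (a - 1)]
    linarith

end perc

section main

variable {I K : Type} [Fintype I] [Fintype K]

/-- deterministic part of row `i` -/
noncomputable def cc {L : Type} (A : I → (K ⊕ L) → ℤ) (x : K ⊕ L → Bool) (i : I) : ℝ :=
  ∑ j, (A i (Sum.inl j) : ℝ) * sg (x (Sum.inl j))

lemma cc_sq {d n : ℕ} (A : I → (K ⊕ Fin d) → ℤ) (hA : IsHad A n) (x : K ⊕ Fin d → Bool) :
    ∑ i, cc A x i ^ 2 = n * (Fintype.card K : ℝ) := by
  have := hA.2 (Sum.elim (fun j => sg (x (Sum.inl j))) (fun _ => 0))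
  simp only [Fintype.sum_sum_type, Sum.elim_inl, Sum.elim_inr, mul_zero, Finset.sum_const_zero,
    add_zero] at this
  unfold cc
  rw [this]
  have h2 : ∀ j : K, sg (x (Sum.inl j)) ^ 2 = 1 := fun j => by rw [sq, sg_sq]
  simp [h2]

/-- random part, Hadamard version -/
lemma rest_sq {d n : ℕ} (A : I → (K ⊕ Fin d) → ℤ) (hA : IsHad A n) (x : K ⊕ Fin d → Bool) :
    ∑ i, (∑ j, (A i (Sum.inr j) : ℝ) * sg (x (Sum.inr j))) ^ 2 = n * (d : ℝ) := by
  have := hA.2 (Sum.elim (fun _ => 0) (fun j => sg (x (Sum.inr j))))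
  simp only [Fintype.sum_sum_type, Sum.elim_inl, Sum.elim_inr, mul_zero, Finset.sum_const_zero,
    zero_add, ne_eq, OfNat.ofNat_ne_zero, not_false_eq_true, zero_pow] at this
  rw [this]
  have h2 : ∀ j : Fin d, sg (x (Sum.inr j)) ^ 2 = 1 := fun j => by rw [sq, sg_sq]
  simp [h2]

open Classical in
lemma main_exists (h M : ℕ) (hM : 0 < M) (h1h : 1 ≤ h)
    (A : I → (K ⊕ Fin (2 * h)) → ℤ) (hA : IsHad A (4096 * M))
    (hI : Fintype.card I = 4096 * M) (hK : Fintype.card K + 2 * h = 4096 * M)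
    (σ : ℝ) (hσ : 0 < σ) (hσ2 : σ ^ 2 = 4096 * M)
    (hh : (2 * (h:ℝ)) = σ ^ 2 / 2 ^ 28) (hp : p0 h ≤ 1 / 2 ^ 15)
    (hNF : (univ.filter (fun x : K ⊕ Fin (2 * h) → Bool =>
      (1 - 3 / 2 ^ 14) * (4096 * M) * σ ≤ ∑ i, |∑ j, (A i j : ℝ) * sg (x j)|)).card
      ≤ 2 ^ (3456 * M)) :
    ∃ R : I → Fin (2 * h) → Bool, ∀ x : K ⊕ Fin (2 * h) → Bool,
      ∃ i, (1 + 1 / 2 ^ 28) * σ < |cc A x i + ∑ j, sg (R i j) * sg (x (Sum.inr j))| := by
  by_contra hcon
  push Not at hcon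
  set t : ℝ := (1 + 1 / 2 ^ 28) * σ with ht
  set W : (K ⊕ Fin (2 * h) → Bool) → ℝ := fun x => ∏ i : I, q (2 * h) (|cc A x i| - t) with hW
  have hM' : (1:ℝ) ≤ M := by exact_mod_cast hM
  have hIr : (Fintype.card I : ℝ) = 4096 * M := by exact_mod_cast hI
  have hKr : (Fintype.card K : ℝ) + 2 * h = 4096 * M := by exact_mod_cast hK
  have hlog1 := Real.log_two_lt_d9
  have hlog2 := Real.log_two_gt_d9
  -- union bound
  have hunion : (1:ℝ) ≤ ∑ x, W x := by
    have h1 : (univ : Finset (I → Fin (2 * h) → Bool)) ⊆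
        univ.biUnion (fun x : K ⊕ Fin (2 * h) → Bool =>
          Fintype.piFinset (fun i : I => univ.filter (fun r : Fin (2 * h) → Bool =>
            |cc A x i + ∑ j, sg (r j) * sg (x (Sum.inr j))| ≤ t))) := by
      intro R _
      obtain ⟨x, hx⟩ := hcon R
      rw [Finset.mem_biUnion]
      refine ⟨x, Finset.mem_univ _, ?_⟩
      rw [Fintype.mem_piFinset]
      intro i
      exact Finset.mem_filter.mpr ⟨Finset.mem_univ _, hx i⟩
    have h2 := (Finset.card_le_card h1).trans Finset.card_biUnion_le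
    rw [Finset.card_univ, Fintype.card_fun, Fintype.card_fun, Fintype.card_bool,
      Fintype.card_fin] at h2
    have h3 : ((2:ℝ) ^ (2 * h)) ^ (Fintype.card I) ≤ ∑ x : K ⊕ Fin (2 * h) → Bool,
        ((Fintype.piFinset (fun i : I => univ.filter (fun r : Fin (2 * h) → Bool =>
            |cc A x i + ∑ j, sg (r j) * sg (x (Sum.inr j))| ≤ t))).card : ℝ) := by
      exact_mod_cast h2
    have h4 : ∀ x : K ⊕ Fin (2 * h) → Bool,
        ((Fintype.piFinset (fun i : I => univ.filter (fun r : Fin (2 * h) → Bool =>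
            |cc A x i + ∑ j, sg (r j) * sg (x (Sum.inr j))| ≤ t))).card : ℝ)
          ≤ ((2:ℝ) ^ (2 * h)) ^ (Fintype.card I) * W x := by
      intro x
      rw [Fintype.card_piFinset, hW]
      push_cast
      calc ∏ i : I, ((univ.filter (fun r : Fin (2 * h) → Bool =>
            |cc A x i + ∑ j, sg (r j) * sg (x (Sum.inr j))| ≤ t)).card : ℝ)
          ≤ ∏ i : I, (2 ^ (2 * h) * q (2 * h) (|cc A x i| - t)) := by
            apply Finset.prod_le_prod
            · intro i _; positivity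
            · intro i _
              exact row_count (cc A x i) t (fun j => x (Sum.inr j))
        _ = _ := by
            rw [Finset.prod_mul_distrib, Finset.prod_const, Finset.card_univ]
    have h5 := h3.trans (Finset.sum_le_sum (fun x _ => h4 x))
    rw [← Finset.mul_sum] at h5
    have hpos : (0:ℝ) < ((2:ℝ) ^ (2 * h)) ^ (Fintype.card I) := by positivity
    nlinarith
  -- normalised deterministic parts
  have hysum : ∀ x : K ⊕ Fin (2 * h) → Bool,
      ∑ i, (|cc A x i| / σ) ^ 2 = (Fintype.card K : ℝ) := by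
    intro x
    have h1 := cc_sq A hA x
    have h2 : ∀ i, (|cc A x i| / σ) ^ 2 = cc A x i ^ 2 / σ ^ 2 := by
      intro i
      rw [div_pow, sq_abs]
    rw [Finset.sum_congr rfl (fun i _ => h2 i), ← Finset.sum_div, h1, hσ2]
    push_cast
    field_simp
  have hqeq : ∀ (x : K ⊕ Fin (2 * h) → Bool) (i : I),
      q (2 * h) (|cc A x i| - t) = q (2 * h) (σ * (|cc A x i| / σ) - (1 + 1 / 2 ^ 28) * σ) := by
    intro x i
    congr 1
    rw [ht]
    field_simp
  have hW1 : ∀ x, W x ≤ Real.exp (-3 - 3456 * M * Real.log 2) := by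
    intro x
    have h1 : W x ≤ ∏ i : I, Real.exp (-Real.log 2 + 6 / 2 ^ 14
        - (p0 h * σ / 2) * ((|cc A x i| / σ) ^ 2 - 1)) := by
      apply Finset.prod_le_prod
      · intro i _; exact q_nonneg _ _
      · intro i _
        rw [hqeq]
        exact claimI h σ hσ h1h hh hp _ (by positivity)
    refine h1.trans ?_
    rw [← Real.exp_sum]
    apply Real.exp_le_exp.mpr
    rw [Finset.sum_sub_distrib, ← Finset.mul_sum, Finset.sum_sub_distrib, hysum x]
    simp only [Finset.sum_const, Finset.card_univ, nsmul_eq_mul, mul_one]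
    rw [hIr]
    have hmu := mu_upper h σ hσ hh
    have hmu0 : 0 < p0 h * σ := mul_pos (p0_pos h) hσ
    have e1 : (Fintype.card K : ℝ) - 4096 * M = - (2 * h) := by linarith
    rw [e1, hh, hσ2]
    have h2 : p0 h * σ / 2 * (4096 * (M:ℝ) / 2 ^ 28) ≤ 2 ^ 14 / 2 * (4096 * (M:ℝ) / 2 ^ 28) :=
      mul_le_mul_of_nonneg_right (by linarith) (by positivity)
    have h3 : (2:ℝ) ^ 14 / 2 * (4096 * (M:ℝ) / 2 ^ 28) = M / 8 := by ring
    rw [h3] at h2
    nlinarith
  have hW2 : ∀ x, ∑ i, |cc A x i| < (1 - 2 / 2 ^ 14) * (4096 * M) * σ →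
      W x ≤ Real.exp (-3 - 4096 * M * Real.log 2) := by
    intro x hx
    have h1 : W x ≤ ∏ i : I, Real.exp ((1 + 1 / 2 ^ 14) ^ 2
        + 2 ^ 14 * (|cc A x i| / σ - (|cc A x i| / σ) ^ 2)) := by
      apply Finset.prod_le_prod
      · intro i _; exact q_nonneg _ _
      · intro i _
        rw [hqeq]
        exact claimII h σ hσ h1h hh _ (by positivity)
    refine h1.trans ?_
    rw [← Real.exp_sum]
    apply Real.exp_le_exp.mpr
    rw [Finset.sum_add_distrib, ← Finset.mul_sum, Finset.sum_sub_distrib, hysum x]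
    simp only [Finset.sum_const, Finset.card_univ, nsmul_eq_mul]
    rw [hIr, ← Finset.sum_div]
    have h2 : (∑ i, |cc A x i|) / σ < (1 - 2 / 2 ^ 14) * (4096 * M) := by
      rw [div_lt_iff₀ hσ]
      exact hx
    have e1 : (Fintype.card K : ℝ) = 4096 * M - 4096 * M / 2 ^ 28 := by
      rw [← hσ2, ← hh]
      rw [hσ2]
      linarith
    rw [e1]
    have h3 : (2:ℝ) ^ 14 * ((∑ i, |cc A x i|) / σ - (4096 * M - 4096 * M / 2 ^ 28))
        ≤ 2 ^ 14 * ((1 - 2 / 2 ^ 14) * (4096 * M) - (4096 * M - 4096 * M / 2 ^ 28)) :=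
      mul_le_mul_of_nonneg_left (by linarith) (by positivity)
    refine (add_le_add_right h3 _).trans ?_
    ring_nf
    nlinarith
  -- near-flat part is contained in NF
  have hsub : (univ.filter (fun x : K ⊕ Fin (2 * h) → Bool =>
      (1 - 2 / 2 ^ 14) * (4096 * M) * σ ≤ ∑ i, |cc A x i|)) ⊆
      (univ.filter (fun x : K ⊕ Fin (2 * h) → Bool =>
      (1 - 3 / 2 ^ 14) * (4096 * M) * σ ≤ ∑ i, |∑ j, (A i j : ℝ) * sg (x j)|)) := by
    intro x hx
    have hx' := (Finset.mem_filter.mp hx).2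
    refine Finset.mem_filter.mpr ⟨Finset.mem_univ _, ?_⟩
    have h1 := rest_sq A hA x
    have h2 : (∑ i, |∑ j, (A i (Sum.inr j) : ℝ) * sg (x (Sum.inr j))|) ^ 2
        ≤ (4096 * M * σ / 2 ^ 14) ^ 2 := by
      have h3 := sq_sum_le_card_mul_sum_sq (s := (univ : Finset I))
        (f := fun i => |∑ j, (A i (Sum.inr j) : ℝ) * sg (x (Sum.inr j))|)
      refine h3.trans ?_
      simp only [sq_abs]
      rw [h1, Finset.card_univ, hIr]
      push_cast
      rw [hh, hσ2]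
      apply le_of_eq
      have : (4096 * (M:ℝ) * σ / 2 ^ 14) ^ 2 = (4096 * M) ^ 2 * σ ^ 2 / 2 ^ 28 := by ring
      rw [this, hσ2]
      ring
    have h3 : (∑ i, |∑ j, (A i (Sum.inr j) : ℝ) * sg (x (Sum.inr j))|)
        ≤ 4096 * M * σ / 2 ^ 14 := le_of_sq_le_sq h2 (by positivity)
    have h4 : ∑ i, (|cc A x i| - |∑ j, (A i (Sum.inr j) : ℝ) * sg (x (Sum.inr j))|)
        ≤ ∑ i, |∑ j, (A i j : ℝ) * sg (x j)| := by
      apply Finset.sum_le_sum
      intro i _
      have h5 : ∑ j, (A i j : ℝ) * sg (x j)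
          = cc A x i + ∑ j, (A i (Sum.inr j) : ℝ) * sg (x (Sum.inr j)) := by
        rw [Fintype.sum_sum_type]
        rfl
      rw [h5]
      have h6 := abs_sub_abs_le_abs_sub (cc A x i)
        (-(∑ j, (A i (Sum.inr j) : ℝ) * sg (x (Sum.inr j))))
      rw [abs_neg, sub_neg_eq_add] at h6
      exact h6
    rw [Finset.sum_sub_distrib] at h4
    have h5 : (1 - 3 / 2 ^ 14) * (4096 * (M:ℝ)) * σ
        = (1 - 2 / 2 ^ 14) * (4096 * M) * σ - 4096 * M * σ / 2 ^ 14 := by ring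
    rw [h5]
    linarith
  have hcard1 : ((univ.filter (fun x : K ⊕ Fin (2 * h) → Bool =>
      (1 - 2 / 2 ^ 14) * (4096 * M) * σ ≤ ∑ i, |cc A x i|)).card : ℝ) ≤ 2 ^ (3456 * M) := by
    exact_mod_cast (Finset.card_le_card hsub).trans hNF
  have hcard2 : ((univ.filter (fun x : K ⊕ Fin (2 * h) → Bool =>
      ¬ (1 - 2 / 2 ^ 14) * (4096 * M) * σ ≤ ∑ i, |cc A x i|)).card : ℝ) ≤ 2 ^ (4096 * M) := by
    have h1 : (univ.filter (fun x : K ⊕ Fin (2 * h) → Bool =>
      ¬ (1 - 2 / 2 ^ 14) * (4096 * M) * σ ≤ ∑ i, |cc A x i|)).card ≤ 2 ^ (4096 * M) := by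
      refine (Finset.card_filter_le _ _).trans ?_
      rw [Finset.card_univ, Fintype.card_fun, Fintype.card_bool, Fintype.card_sum,
        Fintype.card_fin, hK]
    exact_mod_cast h1
  rw [← Finset.sum_filter_add_sum_filter_not univ (fun x : K ⊕ Fin (2 * h) → Bool =>
      (1 - 2 / 2 ^ 14) * (4096 * M) * σ ≤ ∑ i, |cc A x i|)] at hunion
  have hs1 : ∑ x ∈ univ.filter (fun x : K ⊕ Fin (2 * h) → Bool =>
      (1 - 2 / 2 ^ 14) * (4096 * M) * σ ≤ ∑ i, |cc A x i|), W x ≤ Real.exp (-3) := by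
    calc _ ≤ ∑ x ∈ univ.filter (fun x : K ⊕ Fin (2 * h) → Bool =>
      (1 - 2 / 2 ^ 14) * (4096 * M) * σ ≤ ∑ i, |cc A x i|), Real.exp (-3 - 3456 * M * Real.log 2) :=
          Finset.sum_le_sum (fun x _ => hW1 x)
      _ = ((univ.filter (fun x : K ⊕ Fin (2 * h) → Bool =>
      (1 - 2 / 2 ^ 14) * (4096 * M) * σ ≤ ∑ i, |cc A x i|)).card : ℝ)
          * Real.exp (-3 - 3456 * M * Real.log 2) := by
          rw [Finset.sum_const, nsmul_eq_mul]
      _ ≤ 2 ^ (3456 * M) * Real.exp (-3 - 3456 * M * Real.log 2) :=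
          mul_le_mul_of_nonneg_right hcard1 (Real.exp_pos _).le
      _ = Real.exp (-3) := by
          have : (2:ℝ) ^ (3456 * M) = Real.exp (3456 * M * Real.log 2) := by
            rw [← Real.rpow_natCast, Real.rpow_def_of_pos (by norm_num)]
            congr 1
            push_cast
            ring
          rw [this, ← Real.exp_add]
          congr 1
          ring
  have hs2 : ∑ x ∈ univ.filter (fun x : K ⊕ Fin (2 * h) → Bool =>
      ¬ (1 - 2 / 2 ^ 14) * (4096 * M) * σ ≤ ∑ i, |cc A x i|), W x ≤ Real.exp (-3) := by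
    calc _ ≤ ∑ x ∈ univ.filter (fun x : K ⊕ Fin (2 * h) → Bool =>
      ¬ (1 - 2 / 2 ^ 14) * (4096 * M) * σ ≤ ∑ i, |cc A x i|),
            Real.exp (-3 - 4096 * M * Real.log 2) :=
          Finset.sum_le_sum (fun x hx => hW2 x (not_le.mp (Finset.mem_filter.mp hx).2))
      _ = ((univ.filter (fun x : K ⊕ Fin (2 * h) → Bool =>
      ¬ (1 - 2 / 2 ^ 14) * (4096 * M) * σ ≤ ∑ i, |cc A x i|)).card : ℝ)
          * Real.exp (-3 - 4096 * M * Real.log 2) := by
          rw [Finset.sum_const, nsmul_eq_mul]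
      _ ≤ 2 ^ (4096 * M) * Real.exp (-3 - 4096 * M * Real.log 2) :=
          mul_le_mul_of_nonneg_right hcard2 (Real.exp_pos _).le
      _ = Real.exp (-3) := by
          have : (2:ℝ) ^ (4096 * M) = Real.exp (4096 * M * Real.log 2) := by
            rw [← Real.rpow_natCast, Real.rpow_def_of_pos (by norm_num)]
            congr 1
            push_cast
            ring
          rw [this, ← Real.exp_add]
          congr 1
          ring
  have h3 : Real.exp (-3) ≤ 1 / 4 := by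
    rw [Real.exp_neg, inv_eq_one_div]
    apply one_div_le_one_div_of_le (by norm_num)
    have := Real.add_one_le_exp (3:ℝ)
    linarith
  linarith

end main

end Pool.Agent.H156R2
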