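import Mathlib

set_option autoImplicit false

namespace Pool.Agent.H156R2

open Finset

/-- sign attached to a Boolean: `false ↦ 1`, `true ↦ -1`. -/
def sg (b : Bool) : ℝ := if b then -1 else 1

lemma sg_mul (a b : Bool) : sg a * sg b = sg (xor a b) := by
  cases a <;> cases b <;> simp [sg]

lemma sg_not (a : Bool) : sg (!a) = - sg a := by
  cases a <;> simp [sg]

lemma sg_sq (a : Bool) : sg a * sg a = 1 := by
  cases a <;> simp [sg]

lemma abs_sg (a : Bool) : |sg a| = 1 := by
  cases a <;> simp [sg]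

/-- sum of `d` signs. -/
def rs {d : ℕ} (r : Fin d → Bool) : ℝ := ∑ j, sg (r j)

/-- sets of `false` coordinates -/
def eqv (d : ℕ) : (Fin d → Bool) ≃ Finset (Fin d) where
  toFun r := univ.filter (fun j => r j = false)
  invFun B := fun j => decide (j ∉ B)
  left_inv r := by
    funext j
    simp
  right_inv B := by
    ext j
    simp

lemma rs_eq {d : ℕ} (r : Fin d → Bool) : rs r = 2 * ((eqv d r).card : ℝ) - d := by
  unfold rs eqv
  simp only [Equiv.coe_fn_mk]
  have h1 : ∀ j, sg (r j) = 2 * (if r j = false then (1:ℝ) else 0) - 1 := by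
    intro j
    cases r j <;> simp [sg]
    norm_num
  rw [Finset.sum_congr rfl (fun j _ => h1 j)]
  rw [Finset.sum_sub_distrib, ← Finset.mul_sum, Finset.sum_boole]
  simp

/-- tail sums of the binomial row `2h`. -/
def T (h j : ℕ) : ℕ := ∑ l ∈ Ico j (2 * h + 1), (2 * h).choose l

lemma card_tail_le (h j : ℕ) (s : ℝ) (hs : ∀ l : ℕ, s ≤ 2 * (l:ℝ) - (2 * h : ℕ) → j ≤ l) :
    ((univ.filter (fun r : Fin (2 * h) → Bool => s ≤ rs r)).card) ≤ T h j := by
  have h1 : (univ.filter (fun r : Fin (2 * h) → Bool => s ≤ rs r)).card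
      ≤ (univ.filter (fun B : Finset (Fin (2 * h)) => j ≤ B.card)).card := by
    apply Finset.card_le_card_of_injOn (fun r => eqv (2 * h) r)
    · intro r hr
      simp only [coe_filter, mem_univ, true_and, Set.mem_ofPred_eq] at hr ⊢
      rw [rs_eq] at hr
      exact hs _ hr
    · exact (eqv (2 * h)).injective.injOn
  refine h1.trans (le_of_eq ?_)
  rw [Finset.card_filter]
  have h2 := Finset.sum_powerset_apply_card (fun k => if j ≤ k then 1 else 0)
    (x := (univ : Finset (Fin (2 * h))))
  simp only [Finset.powerset_univ, Finset.card_univ, Fintype.card_fin, smul_eq_mul] at h2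
  rw [h2]
  unfold T
  rw [← Finset.sum_filter_add_sum_filter_not (range (2 * h + 1)) (fun k => j ≤ k)]
  rw [Finset.sum_congr (g := fun k => (2 * h).choose k) rfl
    (fun k hk => by simp [(Finset.mem_filter.mp hk).2])]
  rw [Finset.sum_eq_zero (s := filter (fun k => ¬ j ≤ k) (range (2 * h + 1)))
    (fun k hk => by simp [(Finset.mem_filter.mp hk).2])]
  rw [add_zero]
  apply Finset.sum_congr _ (fun _ _ => rfl)
  ext k
  simp only [mem_filter, mem_range, mem_Ico]
  tauto

lemma T_succ (h j : ℕ) (hj : j ≤ 2 * h) : T h j = (2 * h).choose j + T h (j + 1) := by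
  unfold T
  rw [Finset.sum_eq_sum_Ico_succ_bot (by omega)]

/-- log-concavity of binomial coefficients. -/
lemma choose_logconc (n h a b : ℕ) :
    n.choose h * n.choose (h + a + b) ≤ n.choose (h + a) * n.choose (h + b) := by
  induction b with
  | zero => simp [mul_comm]
  | succ b ih =>
    -- C(n, k+1) * (k+1) = C(n,k) * (n-k)
    have e1 := Nat.choose_succ_right_eq n (h + a + b)
    have e2 := Nat.choose_succ_right_eq n (h + b)
    have hpos : 0 < (h + b + 1) := by omega
    have hpos2 : 0 < (h + a + b + 1) := by omega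
    -- multiply the wanted inequality by (h+a+b+1) * (h+b+1)
    have key : (n.choose h * n.choose (h + a + (b + 1))) * (h + a + b + 1)
        ≤ (n.choose (h + a) * n.choose (h + (b + 1))) * (h + a + b + 1) := by
      calc (n.choose h * n.choose (h + a + (b + 1))) * (h + a + b + 1)
          = n.choose h * (n.choose (h + a + b + 1) * (h + a + b + 1)) := by
            rw [← add_assoc]; ring
        _ = n.choose h * (n.choose (h + a + b) * (n - (h + a + b))) := by rw [e1]
        _ = (n.choose h * n.choose (h + a + b)) * (n - (h + a + b)) := by ring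
        _ ≤ (n.choose (h + a) * n.choose (h + b)) * (n - (h + b)) :=
            Nat.mul_le_mul ih (by omega)
        _ = n.choose (h + a) * (n.choose (h + b) * (n - (h + b))) := by ring
        _ = n.choose (h + a) * (n.choose (h + b + 1) * (h + b + 1)) := by rw [e2]
        _ = (n.choose (h + a) * n.choose (h + (b + 1))) * (h + b + 1) := by
            rw [← add_assoc]; ring
        _ ≤ _ := Nat.mul_le_mul_left _ (by omega)
    exact Nat.le_of_mul_le_mul_right key hpos2

lemma hazard (h a : ℕ) (ha : a ≤ h) :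
    (2 * h).choose h * T h (h + a) ≤ (2 * h).choose (h + a) * T h h := by
  unfold T
  rw [Finset.sum_Ico_eq_sum_range, Finset.sum_Ico_eq_sum_range, Finset.mul_sum, Finset.mul_sum]
  calc ∑ k ∈ range (2 * h + 1 - (h + a)), (2 * h).choose h * (2 * h).choose (h + a + k)
      ≤ ∑ k ∈ range (2 * h + 1 - (h + a)), (2 * h).choose (h + a) * (2 * h).choose (h + k) :=
        Finset.sum_le_sum (fun k _ => choose_logconc (2 * h) h a k)
    _ ≤ ∑ k ∈ range (2 * h + 1 - h), (2 * h).choose (h + a) * (2 * h).choose (h + k) := by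
        apply Finset.sum_le_sum_of_subset
        intro x hx
        simp only [mem_range] at hx ⊢
        omega

lemma two_T (h : ℕ) : 2 * T h h = 4 ^ h + (2 * h).choose h := by
  have h1 : ∑ l ∈ range (2 * h + 1), (2 * h).choose l = 2 ^ (2 * h) := Nat.sum_range_choose (2 * h)
  have h2 : ∑ l ∈ range (2 * h + 1), (2 * h).choose l
      = ∑ l ∈ range h, (2 * h).choose l + T h h := by
    unfold T
    rw [Finset.range_eq_Ico, Finset.range_eq_Ico, Finset.sum_Ico_consecutive _ (by omega) (by omega)]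
  have h3 : T h h = (2 * h).choose h + ∑ l ∈ range h, (2 * h).choose l := by
    rw [T_succ h h (by omega)]
    congr 1
    unfold T
    rw [Finset.sum_Ico_eq_sum_range]
    have : 2 * h + 1 - (h + 1) = h := by omega
    rw [this]
    rw [← Finset.sum_range_reflect]
    apply Finset.sum_congr rfl
    intro k hk
    have hk' := Finset.mem_range.mp hk
    rw [← Nat.choose_symm (by omega)]
    congr 1
    omega
  have h4 : (2:ℕ) ^ (2 * h) = 4 ^ h := by rw [pow_mul]; norm_num
  omega

/-- the central probability -/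
noncomputable def p0 (h : ℕ) : ℝ := (Nat.centralBinom h : ℝ) / 4 ^ h

lemma p0_pos (h : ℕ) : 0 < p0 h := by
  unfold p0
  have := Nat.centralBinom_pos h
  positivity

lemma p0_succ (h : ℕ) : (2 * (h:ℝ) + 2) * p0 (h + 1) = (2 * h + 1) * p0 h := by
  unfold p0
  have h1 := Nat.succ_mul_centralBinom_succ h
  have h2 : ((h:ℝ) + 1) * (Nat.centralBinom (h+1) : ℝ) = 2 * (2 * h + 1) * Nat.centralBinom h := by
    exact_mod_cast h1
  have h4 : (0:ℝ) < 4 ^ h := by positivity
  rw [pow_succ]
  field_simp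
  linarith

lemma p0_upper (h : ℕ) : (2 * (h:ℝ) + 1) * p0 h ^ 2 ≤ 1 := by
  induction h with
  | zero => simp [p0]
  | succ h ih =>
    have h1 := p0_succ h
    have hp : 0 < p0 (h+1) := p0_pos (h+1)
    have hp' : 0 < p0 h := p0_pos h
    have e : (2 * (h:ℝ) + 2) ^ 2 * p0 (h + 1) ^ 2 = (2 * h + 1) ^ 2 * p0 h ^ 2 := by
      rw [← mul_pow, h1, mul_pow]
    push_cast
    have hh : (0:ℝ) ≤ h := Nat.cast_nonneg h
    have k1 : (2 * ((h:ℝ) + 1) + 1) * p0 (h + 1) ^ 2 * (2 * (h:ℝ) + 2) ^ 2
        ≤ 1 * (2 * (h:ℝ) + 2) ^ 2 := by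
      have : (2 * ((h:ℝ) + 1) + 1) * p0 (h + 1) ^ 2 * (2 * (h:ℝ) + 2) ^ 2
        = (2 * (h:ℝ) + 3) * (2 * h + 1) * ((2 * h + 1) * p0 h ^ 2) := by
        calc (2 * ((h:ℝ) + 1) + 1) * p0 (h + 1) ^ 2 * (2 * (h:ℝ) + 2) ^ 2
            = (2 * (h:ℝ) + 3) * ((2 * (h:ℝ) + 2) ^ 2 * p0 (h + 1) ^ 2) := by ring
          _ = _ := by rw [e]; ring
      rw [this]
      calc (2 * (h:ℝ) + 3) * (2 * h + 1) * ((2 * h + 1) * p0 h ^ 2)
          ≤ (2 * (h:ℝ) + 3) * (2 * h + 1) * 1 := by
            apply mul_le_mul_of_nonneg_left ih; positivity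
        _ ≤ 1 * (2 * (h:ℝ) + 2) ^ 2 := by nlinarith
    exact le_of_mul_le_mul_right k1 (by positivity)

lemma p0_lower (h : ℕ) (hh : 1 ≤ h) : 1 ≤ 4 * (h:ℝ) * p0 h ^ 2 := by
  induction h, hh using Nat.le_induction with
  | base =>
    have : p0 1 = 1 / 2 := by
      unfold p0
      have : Nat.centralBinom 1 = 2 := by decide
      rw [this]; norm_num
    rw [this]; norm_num
  | succ h hh ih =>
    have h1 := p0_succ h
    have e : (2 * (h:ℝ) + 2) ^ 2 * p0 (h + 1) ^ 2 = (2 * h + 1) ^ 2 * p0 h ^ 2 := by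
      rw [← mul_pow, h1, mul_pow]
    push_cast
    have hh0 : (1:ℝ) ≤ h := by exact_mod_cast hh
    -- 4 (h+1) p^2 = (2h+1)^2 p0^2 / (h+1)
    have k1 : 4 * ((h:ℝ) + 1) * p0 (h + 1) ^ 2 * (h + 1) = (2 * h + 1) ^ 2 * p0 h ^ 2 := by
      rw [← e]; ring
    have hp : 0 ≤ p0 h ^ 2 := sq_nonneg _
    have k2 : (1:ℝ) * ((h:ℝ) + 1) ≤ 4 * ((h:ℝ) + 1) * p0 (h + 1) ^ 2 * (h + 1) := by
      rw [k1]
      -- (2h+1)^2 p^2 ≥ 4h(h+1) p^2 ≥ (h+1)
      nlinarith
    exact le_of_mul_le_mul_right k2 (by positivity)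

lemma choose_eq_p0 (h : ℕ) : ((2 * h).choose h : ℝ) = 4 ^ h * p0 h := by
  unfold p0
  rw [Nat.centralBinom_eq_two_mul_choose]
  field_simp

lemma T_mid (h : ℕ) : (T h h : ℝ) = 4 ^ h * ((1 + p0 h) / 2) := by
  have h1 := two_T h
  have h2 : 2 * (T h h : ℝ) = 4 ^ h + ((2 * h).choose h : ℝ) := by exact_mod_cast h1
  rw [choose_eq_p0] at h2
  linarith

lemma one_sub_div_le (p : ℝ) (hp : 0 < p) (_ : p ≤ 1) : (1 - p) / (1 + p) ≤ Real.exp (-(2 * p)) := by
  -- (1-p)/(1+p) ≤ e^{-2p}  ⟸  (1-p) e^{p} ≤ (1+p) e^{-p}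
  -- use: log((1+p)/(1-p)) ≥ 2p via artanh series; elementary proof by monotonicity
  rw [div_le_iff₀ (by linarith)]
  have h1 : (1 - p) * Real.exp p ≤ (1 + p) * Real.exp (-p) := by
    have hmono : MonotoneOn (fun x : ℝ => (1 + x) * Real.exp (-x) - (1 - x) * Real.exp x)
        (Set.Ici 0) := by
      apply monotoneOn_of_deriv_nonneg (convex_Ici 0)
      · apply Continuous.continuousOn
        fun_prop
      · apply Differentiable.differentiableOn
        fun_prop
      · intro x hx
        simp only [interior_Ici, Set.mem_Ioi] at hx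
        have hd : HasDerivAt (fun x : ℝ => (1 + x) * Real.exp (-x) - (1 - x) * Real.exp x)
            ((1 * Real.exp (-x) + (1 + x) * (Real.exp (-x) * (-1)))
              - ((-1) * Real.exp x + (1 - x) * Real.exp x)) x := by
          have a1 : HasDerivAt (fun x : ℝ => 1 + x) 1 x := by
            simpa using (hasDerivAt_id x).const_add 1
          have a2 : HasDerivAt (fun x : ℝ => 1 - x) (-1) x := by
            simpa using (hasDerivAt_id x).const_sub 1
          have a3 : HasDerivAt (fun x : ℝ => Real.exp (-x)) (Real.exp (-x) * (-1)) x :=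
            (hasDerivAt_neg x).exp
          exact (a1.mul a3).sub (a2.mul (Real.hasDerivAt_exp x))
        rw [hd.deriv]
        have : (1 * Real.exp (-x) + (1 + x) * (Real.exp (-x) * (-1)))
              - ((-1) * Real.exp x + (1 - x) * Real.exp x) = x * (Real.exp x - Real.exp (-x)) := by
          ring
        rw [this]
        apply mul_nonneg hx.le
        have := Real.exp_le_exp.mpr (show -x ≤ x by linarith)
        linarith
    have := hmono (Set.mem_Ici.mpr le_rfl) (Set.mem_Ici.mpr hp.le) hp.le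
    simp at this
    linarith
  have h2 : (1 - p) = ((1 - p) * Real.exp p) * Real.exp (-p) := by
    rw [mul_assoc, ← Real.exp_add]; simp
  rw [h2]
  calc ((1 - p) * Real.exp p) * Real.exp (-p) ≤ ((1 + p) * Real.exp (-p)) * Real.exp (-p) :=
        mul_le_mul_of_nonneg_right h1 (Real.exp_pos _).le
    _ = Real.exp (-(2 * p)) * (1 + p) := by
        rw [mul_assoc, ← Real.exp_add]
        rw [mul_comm]
        congr 2
        ring

lemma p0_le_one (h : ℕ) : p0 h ≤ 1 := by
  have h1 := p0_upper h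
  have h2 := p0_pos h
  have h3 : (0:ℝ) ≤ h := Nat.cast_nonneg h
  nlinarith

lemma T_pos_side (h a : ℕ) :
    (T h (h + a) : ℝ) ≤ 4 ^ h * ((1 + p0 h) / 2) * Real.exp (-(2 * p0 h * a)) := by
  induction a with
  | zero => simp [T_mid]
  | succ a ih =>
    by_cases ha : h + a ≤ 2 * h
    · have h1 := hazard h a (by omega)
      have h1' : ((2 * h).choose h : ℝ) * T h (h + a) ≤ (2 * h).choose (h + a) * T h h := by
        exact_mod_cast h1
      rw [T_mid, choose_eq_p0] at h1'
      have h2 : (T h (h + a) : ℝ) = (2 * h).choose (h + a) + T h (h + a + 1) := by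
        exact_mod_cast T_succ h (h + a) ha
      have hp := p0_pos h
      have hp1 := p0_le_one h
      have h4 : (0:ℝ) < 4 ^ h := by positivity
      have h3 : p0 h * T h (h + a) ≤ (2 * h).choose (h + a) * ((1 + p0 h) / 2) := by
        have : 4 ^ h * (p0 h * T h (h + a)) ≤ 4 ^ h * ((2 * h).choose (h + a) * ((1 + p0 h) / 2)) := by
          nlinarith
        exact le_of_mul_le_mul_left this h4
      have h5 : (T h (h + (a + 1)) : ℝ) ≤ T h (h + a) * ((1 - p0 h) / (1 + p0 h)) := by
        rw [show h + (a + 1) = h + a + 1 by ring]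
        have e : (T h (h + a + 1) : ℝ) = T h (h + a) - (2 * h).choose (h + a) := by linarith
        rw [e]
        rw [← mul_div_assoc, le_div_iff₀ (by linarith)]
        nlinarith
      calc (T h (h + (a + 1)) : ℝ) ≤ T h (h + a) * ((1 - p0 h) / (1 + p0 h)) := h5
        _ ≤ T h (h + a) * Real.exp (-(2 * p0 h)) := by
            apply mul_le_mul_of_nonneg_left (one_sub_div_le _ hp hp1)
            positivity
        _ ≤ (4 ^ h * ((1 + p0 h) / 2) * Real.exp (-(2 * p0 h * a))) * Real.exp (-(2 * p0 h)) :=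
            mul_le_mul_of_nonneg_right ih (Real.exp_pos _).le
        _ = _ := by
            rw [mul_assoc, ← Real.exp_add]
            congr 2
            push_cast
            ring
    · have : T h (h + (a + 1)) = 0 := by
        unfold T
        rw [Finset.Ico_eq_empty (by omega)]
        simp
      rw [this]
      have hp := p0_pos h
      push_cast
      positivity

lemma T_neg_side (h a : ℕ) (ha : a ≤ h) :
    (T h (h - a) : ℝ) ≤ T h h + a * (2 * h).choose h := by
  induction a with
  | zero => simp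
  | succ a ih =>
    have h1 := ih (by omega)
    have h2 : T h (h - (a + 1)) = (2 * h).choose (h - (a + 1)) + T h (h - (a + 1) + 1) :=
      T_succ h _ (by omega)
    rw [show h - (a + 1) + 1 = h - a by omega] at h2
    have h3 : (2 * h).choose (h - (a + 1)) ≤ (2 * h).choose h := by
      have := Nat.choose_le_centralBinom (h - (a + 1)) h
      rwa [Nat.centralBinom_eq_two_mul_choose] at this
    have h4 : (T h (h - (a + 1)) : ℝ) ≤ (2 * h).choose h + T h (h - a) := by
      rw [h2]
      push_cast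
      have : ((2 * h).choose (h - (a + 1)) : ℝ) ≤ (2 * h).choose h := by exact_mod_cast h3
      linarith
    push_cast
    linarith

/-- fraction of sign vectors whose sum is at least `s`. -/
noncomputable def q (d : ℕ) (s : ℝ) : ℝ :=
  ((univ.filter (fun r : Fin d → Bool => s ≤ rs r)).card : ℝ) / 2 ^ d

lemma q_nonneg (d : ℕ) (s : ℝ) : 0 ≤ q d s := by unfold q; positivity

lemma q_le_one (d : ℕ) (s : ℝ) : q d s ≤ 1 := by
  unfold q
  rw [div_le_one (by positivity)]
  have : (univ.filter (fun r : Fin d → Bool => s ≤ rs r)).card ≤ 2 ^ d := by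
    refine (Finset.card_filter_le _ _).trans ?_
    simp
  exact_mod_cast this

/-- tangent bound for binomial tails. -/
lemma q_tangent (h : ℕ) (s : ℝ) :
    q (2 * h) s ≤ (1 + p0 h) / 2 * Real.exp (-(p0 h * s)) := by
  have hp := p0_pos h
  have hp1 := p0_le_one h
  have h4 : (0:ℝ) < 4 ^ h := by positivity
  have e2 : (2:ℝ) ^ (2 * h) = 4 ^ h := by rw [pow_mul]; norm_num
  unfold q
  rw [e2, div_le_iff₀ h4]
  rcases le_total 0 s with hs | hs
  · -- positive side
    obtain ⟨a, ha⟩ : ∃ a : ℕ, a = ⌈s / 2⌉₊ := ⟨_, rfl⟩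
    have ha1 : s / 2 ≤ a := by rw [ha]; exact Nat.le_ceil _
    have h1 : (univ.filter (fun r : Fin (2 * h) → Bool => s ≤ rs r)).card ≤ T h (h + a) := by
      apply card_tail_le
      intro l hl
      have h2 : s / 2 ≤ (l:ℝ) - h := by push_cast at hl; linarith
      have h3 : (h:ℝ) ≤ l := by linarith [div_nonneg hs (by norm_num : (0:ℝ) ≤ 2)]
      have h3' : h ≤ l := by exact_mod_cast h3
      have h5 : a ≤ l - h := by
        rw [ha]
        apply Nat.ceil_le.mpr
        rw [Nat.cast_sub h3']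
        exact h2
      omega
    calc ((univ.filter (fun r : Fin (2 * h) → Bool => s ≤ rs r)).card : ℝ)
        ≤ T h (h + a) := by exact_mod_cast h1
      _ ≤ 4 ^ h * ((1 + p0 h) / 2) * Real.exp (-(2 * p0 h * a)) := T_pos_side h a
      _ ≤ 4 ^ h * ((1 + p0 h) / 2) * Real.exp (-(p0 h * s)) := by
          apply mul_le_mul_of_nonneg_left _ (by positivity)
          apply Real.exp_le_exp.mpr
          nlinarith
      _ = _ := by ring
  · -- negative side
    obtain ⟨a, ha⟩ : ∃ a : ℕ, a = min h ⌊(-s) / 2⌋₊ := ⟨_, rfl⟩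
    have ha0 : a ≤ h := by rw [ha]; exact min_le_left _ _
    have ha1 : (a:ℝ) ≤ (-s) / 2 := by
      have : (a:ℝ) ≤ (⌊(-s) / 2⌋₊ : ℝ) := by
        exact_mod_cast (by rw [ha]; exact min_le_right _ _ : a ≤ ⌊(-s) / 2⌋₊)
      exact this.trans (Nat.floor_le (by linarith))
    have h1 : (univ.filter (fun r : Fin (2 * h) → Bool => s ≤ rs r)).card ≤ T h (h - a) := by
      apply card_tail_le
      intro l hl
      by_contra hcon
      push Not at hcon
      have h2 : l + a < h := by omega
      have h2' : a < h := by omega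
      have h3 : a = ⌊(-s) / 2⌋₊ := by
        rw [ha] at h2' ⊢
        rcases min_choice h ⌊(-s) / 2⌋₊ with h5 | h5
        · rw [h5] at h2'; omega
        · exact h5
      have h4 : (-s) / 2 < a + 1 := by rw [h3]; exact Nat.lt_floor_add_one _
      have h6 : (l:ℝ) + a + 1 ≤ h := by exact_mod_cast h2
      push_cast at hl
      linarith
    calc ((univ.filter (fun r : Fin (2 * h) → Bool => s ≤ rs r)).card : ℝ)
        ≤ T h (h - a) := by exact_mod_cast h1
      _ ≤ T h h + a * (2 * h).choose h := T_neg_side h a ha0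
      _ = 4 ^ h * ((1 + p0 h) / 2) + a * (4 ^ h * p0 h) := by rw [T_mid, choose_eq_p0]
      _ ≤ 4 ^ h * ((1 + p0 h) / 2) * (1 + 2 * p0 h * a) := by
          have : 0 ≤ (a:ℝ) := Nat.cast_nonneg a
          have h7 : 0 ≤ 4 ^ h * (p0 h * (a * p0 h)) := by positivity
          nlinarith
      _ ≤ 4 ^ h * ((1 + p0 h) / 2) * Real.exp (2 * p0 h * a) := by
          apply mul_le_mul_of_nonneg_left _ (by positivity)
          have := Real.add_one_le_exp (2 * p0 h * a)
          linarith
      _ ≤ 4 ^ h * ((1 + p0 h) / 2) * Real.exp (-(p0 h * s)) := by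
          apply mul_le_mul_of_nonneg_left _ (by positivity)
          apply Real.exp_le_exp.mpr
          nlinarith
      _ = _ := by ring

/-- Chernoff bound. -/
lemma q_chernoff (d : ℕ) (s : ℝ) (hd : 0 < d) (hs : 0 ≤ s) :
    q d s ≤ Real.exp (-(s ^ 2 / (2 * d))) := by
  have hd' : (0:ℝ) < d := by exact_mod_cast hd
  set θ : ℝ := s / d with hθ
  have hθ0 : 0 ≤ θ := by positivity
  have h1 : ∑ r : Fin d → Bool, Real.exp (θ * rs r) = (Real.exp θ + Real.exp (-θ)) ^ d := by
    have : ∀ r : Fin d → Bool, Real.exp (θ * rs r) = ∏ j, Real.exp (θ * sg (r j)) := by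
      intro r
      unfold rs
      rw [Finset.mul_sum, Real.exp_sum]
    rw [Finset.sum_congr rfl (fun r _ => this r)]
    have h0 := Finset.prod_univ_sum (fun _ : Fin d => (univ : Finset Bool))
      (fun _ b => Real.exp (θ * sg b))
    rw [Fintype.piFinset_univ] at h0
    rw [← h0]
    simp [sg, add_comm]
  have h2 : (Real.exp θ + Real.exp (-θ)) ≤ 2 * Real.exp (θ ^ 2 / 2) := by
    have := Real.cosh_le_exp_half_sq θ
    rw [Real.cosh_eq] at this
    linarith
  have h3 : ((univ.filter (fun r : Fin d → Bool => s ≤ rs r)).card : ℝ) * Real.exp (θ * s)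
      ≤ ∑ r : Fin d → Bool, Real.exp (θ * rs r) := by
    rw [← nsmul_eq_mul, ← Finset.sum_const]
    calc ∑ r ∈ univ.filter (fun r : Fin d → Bool => s ≤ rs r), Real.exp (θ * s)
        ≤ ∑ r ∈ univ.filter (fun r : Fin d → Bool => s ≤ rs r), Real.exp (θ * rs r) := by
          apply Finset.sum_le_sum
          intro r hr
          apply Real.exp_le_exp.mpr
          exact mul_le_mul_of_nonneg_left (Finset.mem_filter.mp hr).2 hθ0
      _ ≤ _ := Finset.sum_le_sum_of_subset_of_nonneg (Finset.filter_subset _ _)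
          (fun _ _ _ => (Real.exp_pos _).le)
  unfold q
  rw [div_le_iff₀ (by positivity)]
  have h4 : ((univ.filter (fun r : Fin d → Bool => s ≤ rs r)).card : ℝ) * Real.exp (θ * s)
      ≤ 2 ^ d * Real.exp (s ^ 2 / (2 * d)) := by
    refine h3.trans ?_
    rw [h1]
    calc (Real.exp θ + Real.exp (-θ)) ^ d ≤ (2 * Real.exp (θ ^ 2 / 2)) ^ d := by
          apply pow_le_pow_left₀ (by positivity) h2
      _ = 2 ^ d * Real.exp (s ^ 2 / (2 * d)) := by
          rw [mul_pow, ← Real.exp_nat_mul]
          congr 2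
          rw [hθ]
          field_simp
  have h5 : θ * s = s ^ 2 / d := by rw [hθ]; ring
  have h6 : ((univ.filter (fun r : Fin d → Bool => s ≤ rs r)).card : ℝ)
      = (((univ.filter (fun r : Fin d → Bool => s ≤ rs r)).card : ℝ) * Real.exp (θ * s))
        * Real.exp (-(s ^ 2 / d)) := by
    rw [mul_assoc, ← Real.exp_add, h5]; simp
  rw [h6]
  calc _ ≤ (2 ^ d * Real.exp (s ^ 2 / (2 * d))) * Real.exp (-(s ^ 2 / d)) :=
        mul_le_mul_of_nonneg_right h4 (Real.exp_pos _).le
    _ = Real.exp (-(s ^ 2 / (2 * d))) * 2 ^ d := by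
        rw [mul_assoc, ← Real.exp_add, mul_comm]
        congr 2
        field_simp
        ring

end Pool.Agent.H156R2
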