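import Mathlib
import Pool.Agent.H156R2.Local2

set_option autoImplicit false

open Finset

namespace Pool.Agent.H156R2

/-- layer cake -/
lemma layer (b : ℝ) (hb1 : b ≤ 1) (K : ℕ) :
    b ≤ (∑ k ∈ range K, if (15 / 16 : ℝ) ^ (k + 1) ≤ b then (1 / 16) * (15 / 16 : ℝ) ^ k else 0) +
      (15 / 16 : ℝ) ^ K := by
  induction K with
  | zero => simpa using hb1
  | succ K ih =>
    rw [Finset.sum_range_succ]
    split_ifs with h
    · rw [pow_succ]; linarith
    · push Not at h
      have : 0 ≤ ∑ k ∈ range K, if (15 / 16 : ℝ) ^ (k + 1) ≤ b then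
          (1 / 16) * (15 / 16 : ℝ) ^ k else 0 := by
        apply Finset.sum_nonneg
        intro k _
        split_ifs <;> positivity
      linarith

lemma gsum1 (K : ℕ) : ∑ k ∈ range K, (1 / 16) * (15 / 16 : ℝ) ^ k ≤ 1 := by
  have h : ∀ K : ℕ, ∑ k ∈ range K, (1 / 16) * (15 / 16 : ℝ) ^ k = 1 - (15 / 16 : ℝ) ^ K := by
    intro K
    induction K with
    | zero => simp
    | succ K ih => rw [Finset.sum_range_succ, ih, pow_succ]; ring
  rw [h]
  have : (0 : ℝ) ≤ (15 / 16 : ℝ) ^ K := by positivity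
  linarith

lemma gsum2 (K : ℕ) : ∑ k ∈ range K, (1 / 16) * (15 / 16 : ℝ) ^ k * (k + 1) ≤ 16 := by
  have h : ∀ K : ℕ, ∑ k ∈ range K, (1 / 16) * (15 / 16 : ℝ) ^ k * (k + 1) =
      16 - (K + 16) * (15 / 16 : ℝ) ^ K := by
    intro K
    induction K with
    | zero => simp
    | succ K ih => rw [Finset.sum_range_succ, ih, pow_succ]; push_cast; ring
  rw [h]
  have : (0 : ℝ) ≤ (K + 16) * (15 / 16 : ℝ) ^ K := by positivity
  linarith

/-- a row of large `ℓ₁` norm has a rich threshold set -/
lemma rich {n : ℕ} (b : Fin n → ℝ) (hb1 : ∀ j, b j ≤ 1) (hs : 10 < ∑ j, b j) :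
    ∃ k : ℕ, 5 * Real.log 2 + (2 / 15) * (k + 1) ≤ (Real.log 2 - 1 / 8) *
      (univ.filter (fun j => (15 / 16 : ℝ) ^ (k + 1) ≤ b j)).card := by
  by_contra hcon
  push Not at hcon
  obtain ⟨K, hK⟩ := exists_pow_lt_of_lt_one (by positivity : (0 : ℝ) < 1 / (100 * (n + 1)))
    (by norm_num : (15 / 16 : ℝ) < 1)
  have hl1 : 0.6931471803 < Real.log 2 := Real.log_two_gt_d9
  have hl2 : Real.log 2 < 0.6931471808 := Real.log_two_lt_d9
  have h1 : ∑ j, b j ≤ (∑ k ∈ range K, (1 / 16) * (15 / 16 : ℝ) ^ k *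
      (univ.filter (fun j => (15 / 16 : ℝ) ^ (k + 1) ≤ b j)).card) + n * (15 / 16 : ℝ) ^ K := by
    calc ∑ j, b j ≤ ∑ j, ((∑ k ∈ range K, if (15 / 16 : ℝ) ^ (k + 1) ≤ b j then
          (1 / 16) * (15 / 16 : ℝ) ^ k else 0) + (15 / 16 : ℝ) ^ K) :=
          Finset.sum_le_sum (fun j _ => layer (b j) (hb1 j) K)
      _ = _ := by
          rw [Finset.sum_add_distrib, Finset.sum_comm]
          congr 1
          · apply Finset.sum_congr rfl
            intro k _
            rw [← Finset.sum_filter, Finset.sum_const, nsmul_eq_mul]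
            ring
          · simp
  have h2 : ∑ k ∈ range K, (1 / 16) * (15 / 16 : ℝ) ^ k *
      (univ.filter (fun j => (15 / 16 : ℝ) ^ (k + 1) ≤ b j)).card ≤
      (5 * Real.log 2 * ∑ k ∈ range K, (1 / 16) * (15 / 16 : ℝ) ^ k + (2 / 15) *
        ∑ k ∈ range K, (1 / 16) * (15 / 16 : ℝ) ^ k * (k + 1)) / (Real.log 2 - 1 / 8) := by
    rw [Finset.mul_sum, Finset.mul_sum, ← Finset.sum_add_distrib, Finset.sum_div]
    apply Finset.sum_le_sum
    intro k _
    rw [le_div_iff₀ (by linarith)]
    have h3 := hcon k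
    have h4 : (0 : ℝ) ≤ (1 / 16) * (15 / 16 : ℝ) ^ k := by positivity
    have h5 := mul_le_mul_of_nonneg_left h3.le h4
    linarith
  have h3 : (5 * Real.log 2 * ∑ k ∈ range K, (1 / 16) * (15 / 16 : ℝ) ^ k + (2 / 15) *
        ∑ k ∈ range K, (1 / 16) * (15 / 16 : ℝ) ^ k * (k + 1)) / (Real.log 2 - 1 / 8) ≤ 9.9 := by
    rw [div_le_iff₀ (by linarith)]
    have h4 := mul_le_mul_of_nonneg_left (gsum1 K) (by linarith : 0 ≤ 5 * Real.log 2)
    have h5 := gsum2 K
    nlinarith
  have h4 : n * (15 / 16 : ℝ) ^ K ≤ 0.01 := by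
    have h5 : (n : ℝ) * (15 / 16 : ℝ) ^ K ≤ n * (1 / (100 * (n + 1))) :=
      mul_le_mul_of_nonneg_left hK.le (Nat.cast_nonneg _)
    have h6 : (n : ℝ) * (1 / (100 * (n + 1))) ≤ 0.01 := by
      rw [mul_one_div, div_le_iff₀ (by positivity)]
      linarith
    linarith
  linarith

lemma card_pattern {n : ℕ} (F : Finset (Fin n)) (s : Fin n → Bool) :
    (((univ : Finset (Fin n → Bool)).filter (fun x => ∀ j ∈ F, x j = s j)).card : ℝ) =
      (1 / 2 : ℝ) ^ F.card * Fintype.card (Fin n → Bool) := by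
  have h1 : (univ : Finset (Fin n → Bool)).filter (fun x => ∀ j ∈ F, x j = s j) =
      Fintype.piFinset (fun j => if j ∈ F then {s j} else univ) := by
    ext x
    simp only [mem_filter, mem_univ, true_and, Fintype.mem_piFinset]
    constructor
    · intro h j
      by_cases hj : j ∈ F
      · simp [hj, h j hj]
      · simp [hj]
    · intro h j hj
      have := h j
      simpa [hj] using this
  rw [h1, Fintype.card_piFinset]
  have h2 : ∀ j : Fin n, (if j ∈ F then ({s j} : Finset Bool) else univ).card =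
      if j ∈ F then 1 else 2 := by
    intro j; split_ifs <;> simp
  simp_rw [h2]
  have h3 : ((∏ j : Fin n, (if j ∈ F then 1 else 2) : ℕ) : ℝ) =
      ∏ j : Fin n, ((if j ∈ F then (1 / 2 : ℝ) else 1) * 2) := by
    push_cast
    apply Finset.prod_congr rfl
    intro j _
    split_ifs <;> norm_num
  rw [h3, Finset.prod_mul_distrib, Finset.prod_ite_mem, Finset.univ_inter]
  simp

/-- Unsatisfiable matrices with unit columns have a row of `ℓ₁` norm at most `10`. -/
theorem unsat {m n : ℕ} (a : Fin m → Fin n → ℝ) (hcol : ∀ j, ∑ i, a i j ^ 2 ≤ 1)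
    (hun : ∀ x : Fin n → ℝ, (∀ j, x j = 1 ∨ x j = -1) →
      ∃ i, |∑ j, a i j * x j| = ∑ j, |a i j|) :
    ∃ i, ∑ j, |a i j| ≤ 10 := by
  classical
  by_contra hcon
  push Not at hcon
  have hab : ∀ i j, |a i j| ≤ 1 := by
    intro i j
    have h1 : a i j ^ 2 ≤ 1 :=
      (Finset.single_le_sum (f := fun i => a i j ^ 2) (fun i _ => sq_nonneg _)
        (mem_univ i)).trans (hcol j)
    rwa [sq_le_one_iff_abs_le_one] at h1
  choose k hk using fun i => rich (fun j => |a i j|) (hab i) (hcon i)
  obtain ⟨F, hF⟩ : ∃ F : Fin m → Finset (Fin n), F = fun i =>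
    univ.filter (fun j => (15 / 16 : ℝ) ^ (k i + 1) ≤ |a i j|) := ⟨_, rfl⟩
  have hk' : ∀ i, 5 * Real.log 2 + (2 / 15) * (k i + 1) ≤ (Real.log 2 - 1 / 8) * (F i).card := by
    intro i; rw [hF]; exact hk i
  obtain ⟨s, hs⟩ : ∃ s : Fin m → Fin n → Bool, s = fun i j => decide (0 ≤ a i j) := ⟨_, rfl⟩
  obtain ⟨A, hA⟩ : ∃ A : Fin m → Finset (Fin n → Bool), A = fun i =>
    univ.filter (fun x => ∀ j ∈ F i, x j = s i j) ∪
      univ.filter (fun x => ∀ j ∈ F i, x j = !(s i j)) := ⟨_, rfl⟩
  have hl1 : 0.6931471803 < Real.log 2 := Real.log_two_gt_d9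
  obtain ⟨x, hx⟩ := Pool.Agent.Helper208.Rainbow.lll_exp A F
    (by
      intro i x y hxy
      rw [hA]
      simp only [mem_union, mem_filter, mem_univ, true_and]
      constructor
      · rintro (h | h)
        · exact Or.inl (fun j hj => (hxy j hj) ▸ h j hj)
        · exact Or.inr (fun j hj => (hxy j hj) ▸ h j hj)
      · rintro (h | h)
        · exact Or.inl (fun j hj => (hxy j hj).symm ▸ h j hj)
        · exact Or.inr (fun j hj => (hxy j hj).symm ▸ h j hj))
    (fun i => (1 / 16) * ((15 / 16 : ℝ) ^ (k i + 1)) ^ 2) (fun i => by positivity)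
    (fun i => by
      have h1 : (15 / 16 : ℝ) ^ (k i + 1) ≤ 1 := pow_le_one₀ (by norm_num) (by norm_num)
      have h2 : ((15 / 16 : ℝ) ^ (k i + 1)) ^ 2 ≤ 1 := pow_le_one₀ (by positivity) h1
      linarith)
    (1 / 16)
    (by
      intro j
      calc ∑ i ∈ univ.filter (fun i => j ∈ F i), (1 / 16) * ((15 / 16 : ℝ) ^ (k i + 1)) ^ 2
          ≤ ∑ i ∈ univ.filter (fun i => j ∈ F i), (1 / 16) * a i j ^ 2 := by
            apply Finset.sum_le_sum
            intro i hi
            rw [mem_filter, hF] at hi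
            simp only [mem_filter, mem_univ, true_and] at hi
            rw [← sq_abs (a i j)]
            apply mul_le_mul_of_nonneg_left _ (by norm_num)
            exact pow_le_pow_left₀ (by positivity) hi 2
        _ ≤ ∑ i, (1 / 16) * a i j ^ 2 :=
            Finset.sum_le_sum_of_subset_of_nonneg (Finset.filter_subset _ _)
              (fun i _ _ => by positivity)
        _ ≤ 1 / 16 := by
            rw [← Finset.mul_sum]
            linarith [hcol j])
    (by
      intro i
      rw [hA]
      have h1 := card_pattern (F i) (s i)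
      have h2 := card_pattern (F i) (fun j => !(s i j))
      have h3 := Finset.card_union_le
        ((univ : Finset (Fin n → Bool)).filter (fun x => ∀ j ∈ F i, x j = s i j))
        ((univ : Finset (Fin n → Bool)).filter (fun x => ∀ j ∈ F i, x j = !(s i j)))
      have h4 := (Nat.cast_le (α := ℝ)).2 h3
      rw [Nat.cast_add, h1, h2] at h4
      refine h4.trans ?_
      rw [← add_mul]
      apply mul_le_mul_of_nonneg_right _ (by positivity)
      have h5 := hk' i
      have h6 : (1 / 2 : ℝ) ^ (F i).card + (1 / 2 : ℝ) ^ (F i).card =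
          Real.exp (Real.log 2 - (F i).card * Real.log 2) := by
        rw [Real.exp_sub, Real.exp_log (by norm_num), Real.exp_nat_mul,
          Real.exp_log (by norm_num)]
        rw [one_div, inv_pow]
        ring
      have h7 : (1 / 16) * ((15 / 16 : ℝ) ^ (k i + 1)) ^ 2 =
          Real.exp (-(4 * Real.log 2) - 2 * ((k i + 1) * Real.log (16 / 15))) := by
        rw [Real.exp_sub, Real.exp_neg]
        have e1 : Real.exp (4 * Real.log 2) = 16 := by
          rw [show (4 : ℝ) * Real.log 2 = ((4 : ℕ) : ℝ) * Real.log 2 by norm_num,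
            Real.exp_nat_mul, Real.exp_log (by norm_num)]
          norm_num
        have e2 : Real.exp (2 * ((k i + 1) * Real.log (16 / 15))) =
            (((16 / 15 : ℝ)) ^ (k i + 1)) ^ 2 := by
          rw [show 2 * (((k i : ℝ) + 1) * Real.log (16 / 15)) =
            ((2 : ℕ) : ℝ) * (((k i + 1 : ℕ) : ℝ) * Real.log (16 / 15)) by push_cast; ring,
            Real.exp_nat_mul, Real.exp_nat_mul, Real.exp_log (by norm_num)]
        have e3 : (15 / 16 : ℝ) = (16 / 15 : ℝ)⁻¹ := by norm_num
        rw [e1, e2, e3, inv_pow, inv_pow]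
        generalize ((16 / 15 : ℝ) ^ (k i + 1)) ^ 2 = z
        rw [one_div, div_eq_mul_inv]
      rw [h6, h7, ← Real.exp_add]
      apply Real.exp_le_exp.2
      have h8 : Real.log (16 / 15) ≤ 1 / 15 := by
        have := Real.log_le_sub_one_of_pos (by norm_num : (0 : ℝ) < 16 / 15)
        linarith
      have h9 : ((k i : ℝ) + 1) * Real.log (16 / 15) ≤ (k i + 1) * (1 / 15) :=
        mul_le_mul_of_nonneg_left h8 (by positivity)
      linarith)
  obtain ⟨i, hi⟩ := hun (fun j => sg (x j)) (fun j => sg_cases _)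
  apply hx i
  rw [hA]
  simp only [mem_union, mem_filter, mem_univ, true_and]
  have hne : ∀ j ∈ F i, a i j ≠ 0 := by
    intro j hj h0
    rw [hF] at hj
    simp only [mem_filter, mem_univ, true_and] at hj
    rw [h0, abs_zero] at hj
    have : (0 : ℝ) < (15 / 16 : ℝ) ^ (k i + 1) := by positivity
    linarith
  have habs : ∀ j, |a i j| = |a i j * sg (x j)| := by
    intro j
    rw [abs_mul]
    rcases sg_cases (x j) with h | h <;> simp [h]
  rcases le_total 0 (∑ j, a i j * sg (x j)) with h0 | h0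
  · rw [abs_of_nonneg h0] at hi
    left
    intro j hj
    have h1 : ∑ j, (|a i j| - a i j * sg (x j)) = 0 := by
      rw [Finset.sum_sub_distrib]; linarith
    have h2 := (Finset.sum_eq_zero_iff_of_nonneg (fun j _ => by
      rw [habs j]; linarith [le_abs_self (a i j * sg (x j))])).1 h1 j (mem_univ j)
    have h3 : 0 ≤ a i j * sg (x j) := by
      have := abs_nonneg (a i j); linarith
    have h4 := hne j hj
    rw [hs]
    by_cases h5 : 0 ≤ a i j
    · have h6 : 0 < a i j := lt_of_le_of_ne h5 (Ne.symm h4)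
      simp only [h5, decide_true]
      by_contra h7
      rw [Bool.not_eq_true] at h7
      rw [h7] at h3
      simp [sg] at h3
      linarith
    · push Not at h5
      simp only [not_le.2 h5, decide_false]
      by_contra h7
      rw [Bool.not_eq_false] at h7
      rw [h7] at h3
      simp [sg] at h3
      linarith
  · rw [abs_of_nonpos h0] at hi
    right
    intro j hj
    have h1 : ∑ j, (|a i j| + a i j * sg (x j)) = 0 := by
      rw [Finset.sum_add_distrib]; linarith
    have h2 := (Finset.sum_eq_zero_iff_of_nonneg (fun j _ => by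
      rw [habs j]; linarith [neg_abs_le (a i j * sg (x j))])).1 h1 j (mem_univ j)
    have h3 : a i j * sg (x j) ≤ 0 := by
      have := abs_nonneg (a i j); linarith
    have h4 := hne j hj
    rw [hs]
    by_cases h5 : 0 ≤ a i j
    · have h6 : 0 < a i j := lt_of_le_of_ne h5 (Ne.symm h4)
      simp only [h5, decide_true, Bool.not_true]
      by_contra h7
      rw [Bool.not_eq_false] at h7
      rw [h7] at h3
      simp [sg] at h3
      linarith
    · push Not at h5
      simp only [not_le.2 h5, decide_false, Bool.not_false]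
      by_contra h7
      rw [Bool.not_eq_true] at h7
      rw [h7] at h3
      simp [sg] at h3
      linarith

end Pool.Agent.H156R2
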